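import Mathlib

set_option autoImplicit false

namespace Pool.Agent.W_MP_8b9c06_gt

open Set Filter Topology

/-- weights `8^{-(i+1)}` -/
noncomputable def w (i : ℕ) : ℝ := (1 / 8 : ℝ) ^ (i + 1)

theorem w_pos (i : ℕ) : 0 < w i := by unfold w; positivity

theorem w_nonneg (i : ℕ) : 0 ≤ w i := (w_pos i).le

theorem hasSum_w : HasSum w (1 / 7) := by
  have h := (hasSum_geometric_of_lt_one (r := (1 / 8 : ℝ)) (by norm_num) (by norm_num)).mul_left (1 / 8 : ℝ)
  have h2 : (1 / 8 : ℝ) * (1 - 1 / 8)⁻¹ = 1 / 7 := by norm_num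
  rw [h2] at h
  have h3 : w = fun i => (1 / 8 : ℝ) * (1 / 8) ^ i := by
    funext i
    unfold w
    ring
  rw [h3]
  exact h

theorem summable_w : Summable w := hasSum_w.summable

theorem tsum_w : ∑' i, w i = 1 / 7 := hasSum_w.tsum_eq

theorem summable_w_mul {f : ℕ → ℝ} {B : ℝ} (hf0 : ∀ i, 0 ≤ f i) (hf : ∀ i, f i ≤ B) :
    Summable (fun i => w i * f i) := by
  refine Summable.of_nonneg_of_le (fun i => mul_nonneg (w_nonneg i) (hf0 i)) (fun i => ?_)
    (summable_w.mul_right B)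
  exact mul_le_mul_of_nonneg_left (hf i) (w_nonneg i)

theorem tsum_w_mul_le {f : ℕ → ℝ} {B : ℝ} (hf0 : ∀ i, 0 ≤ f i) (hf : ∀ i, f i ≤ B) :
    ∑' i, w i * f i ≤ (1 / 7) * B := by
  calc ∑' i, w i * f i ≤ ∑' i, w i * B :=
        Summable.tsum_le_tsum (fun i => mul_le_mul_of_nonneg_left (hf i) (w_nonneg i))
          (summable_w_mul hf0 hf) (summable_w.mul_right B)
    _ = (1 / 7) * B := by rw [tsum_mul_right, tsum_w]

theorem tsum_w_mul_nonneg {f : ℕ → ℝ} (hf0 : ∀ i, 0 ≤ f i) : 0 ≤ ∑' i, w i * f i :=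
  tsum_nonneg fun i => mul_nonneg (w_nonneg i) (hf0 i)

/-- difference of two weighted sums -/
theorem tsum_w_mul_sub_le {f g : ℕ → ℝ} {B D : ℝ} (hf0 : ∀ i, 0 ≤ f i) (hf : ∀ i, f i ≤ B)
    (hg0 : ∀ i, 0 ≤ g i) (hg : ∀ i, g i ≤ B) (h : ∀ i, f i ≤ g i + D) :
    ∑' i, w i * f i ≤ ∑' i, w i * g i + (1 / 7) * D := by
  have h1 : ∑' i, w i * f i ≤ ∑' i, (w i * g i + w i * D) := by
    refine Summable.tsum_le_tsum (fun i => ?_) (summable_w_mul hf0 hf)
      ((summable_w_mul hg0 hg).add (summable_w.mul_right D))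
    rw [← mul_add]
    exact mul_le_mul_of_nonneg_left (h i) (w_nonneg i)
  rw [Summable.tsum_add (summable_w_mul hg0 hg) (summable_w.mul_right D), tsum_mul_right, tsum_w] at h1
  exact h1

section FixedPoint

variable {V : Type*} [NormedAddCommGroup V] [NormedSpace ℝ V]

/-- Existence of radii `r i ∈ (0, 1]` with `r i + ∑ⱼ wⱼ |rᵢ uᵢ - rⱼ uⱼ| = 1`, by Banach's fixed
point theorem in the space of bounded sequences. -/
theorem exists_radii (u : ℕ → V) (hu : ∀ i, ‖u i‖ = 1) :
    ∃ r : ℕ → ℝ, (∀ i, 0 < r i) ∧ (∀ i, r i ≤ 1) ∧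
      ∀ i, r i + ∑' j, w j * ‖r i • u i - r j • u j‖ = 1 := by
  have hnorm : ∀ (a b : ℝ) (i j : ℕ) (R : ℝ), |a| ≤ R → |b| ≤ R → ‖a • u i - b • u j‖ ≤ 2 * R := by
    intro a b i j R ha hb
    calc ‖a • u i - b • u j‖ ≤ ‖a • u i‖ + ‖b • u j‖ := norm_sub_le _ _
      _ = |a| + |b| := by rw [norm_smul, norm_smul, hu, hu]; simp
      _ ≤ 2 * R := by linarith
  have hb : ∀ (r : BoundedContinuousFunction ℕ ℝ) (i : ℕ), |r i| ≤ ‖r‖ := fun r i => by
    simpa using r.norm_coe_le_norm i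
  let T : BoundedContinuousFunction ℕ ℝ → BoundedContinuousFunction ℕ ℝ := fun r =>
    BoundedContinuousFunction.ofNormedAddCommGroup
      (fun i => 1 - ∑' j, w j * ‖r i • u i - r j • u j‖) continuous_of_discreteTopology
      (1 + (1 / 7) * (2 * ‖r‖)) (by
        intro i
        have h1 := tsum_w_mul_le (f := fun j => ‖r i • u i - r j • u j‖) (fun j => norm_nonneg _)
          (fun j => hnorm _ _ i j _ (hb r i) (hb r j))
        have h0 := tsum_w_mul_nonneg (f := fun j => ‖r i • u i - r j • u j‖) (fun j => norm_nonneg _)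
        rw [Real.norm_eq_abs, abs_le]
        constructor <;> linarith)
  have hT : ∀ r i, T r i = 1 - ∑' j, w j * ‖r i • u i - r j • u j‖ := fun r i => rfl
  have key : ∀ (r s : BoundedContinuousFunction ℕ ℝ) (i : ℕ),
      ∑' j, w j * ‖r i • u i - r j • u j‖ ≤ ∑' j, w j * ‖s i • u i - s j • u j‖ + (1 / 7) * (2 * ‖r - s‖) := by
    intro r s i
    refine tsum_w_mul_sub_le (B := 2 * max ‖r‖ ‖s‖) (fun j => norm_nonneg _)
      (fun j => hnorm _ _ i j _ ((hb r i).trans (le_max_left _ _)) ((hb r j).trans (le_max_left _ _)))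
      (fun j => norm_nonneg _)
      (fun j => hnorm _ _ i j _ ((hb s i).trans (le_max_right _ _)) ((hb s j).trans (le_max_right _ _)))
      (fun j => ?_)
    have h1 : r i • u i - r j • u j = (s i • u i - s j • u j) + ((r - s) i • u i - (r - s) j • u j) := by
      simp only [BoundedContinuousFunction.coe_sub, Pi.sub_apply, sub_smul]
      abel
    rw [h1]
    exact (norm_add_le _ _).trans (by
      have := hnorm ((r - s) i) ((r - s) j) i j ‖r - s‖ (hb _ _) (hb _ _)
      linarith)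
  have hlip : LipschitzWith (2 / 7 : NNReal) T := by
    refine LipschitzWith.of_dist_le_mul fun r s => ?_
    have h27 : (((2 / 7 : NNReal) : NNReal) : ℝ) = 2 / 7 := by norm_num
    rw [h27, BoundedContinuousFunction.dist_le (by positivity)]
    intro i
    rw [hT, hT, Real.dist_eq, dist_eq_norm, abs_le]
    have h1 := key r s i
    have h2 := key s r i
    rw [norm_sub_rev s r] at h2
    constructor <;> linarith
  have hcontr : ContractingWith (2 / 7 : NNReal) T := ⟨by
    rw [← NNReal.coe_lt_coe]; norm_num, hlip⟩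
  obtain ⟨r, hr⟩ : ∃ r, T r = r := ⟨ContractingWith.fixedPoint T hcontr, hcontr.fixedPoint_isFixedPt⟩
  have hr' : ∀ i, r i = 1 - ∑' j, w j * ‖r i • u i - r j • u j‖ := fun i => by
    rw [← hT, hr]
  have hup : ∀ i, ∑' j, w j * ‖r i • u i - r j • u j‖ ≤ (1 / 7) * (2 * ‖r‖) := fun i =>
    tsum_w_mul_le (fun j => norm_nonneg _) (fun j => hnorm _ _ i j _ (hb r i) (hb r j))
  have hlo : ∀ i, 0 ≤ ∑' j, w j * ‖r i • u i - r j • u j‖ := fun i =>
    tsum_w_mul_nonneg (fun j => norm_nonneg _)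
  have hR : ‖r‖ ≤ 7 / 5 := by
    have : ‖r‖ ≤ 1 + (1 / 7) * (2 * ‖r‖) := by
      refine (BoundedContinuousFunction.norm_le (by positivity)).mpr fun i => ?_
      rw [Real.norm_eq_abs, abs_le]
      have := hr' i
      have := hup i
      have := hlo i
      constructor <;> linarith
    linarith
  refine ⟨fun i => r i, fun i => ?_, fun i => ?_, fun i => ?_⟩
  · have := hr' i
    have := hup i
    linarith
  · have := hr' i
    have := hlo i
    linarith
  · have := hr' i
    linarith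

end FixedPoint

section Points

variable {V : Type*} [NormedAddCommGroup V] [NormedSpace ℝ V]

/-- the function `G(z) = |z| + ∑ⱼ wⱼ |z - xⱼ|` -/
noncomputable def G (x : ℕ → V) (z : V) : ℝ := ‖z‖ + ∑' j, w j * ‖z - x j‖

theorem exists_points (u : ℕ → V) (hu : ∀ i, ‖u i‖ = 1) (hinj : Function.Injective u) :
    ∃ x : ℕ → V, Function.Injective x ∧ (∀ i, ‖x i‖ ≤ 1) ∧ (∀ i, G x (x i) = 1) := by
  obtain ⟨r, hr0, hr1, hr⟩ := exists_radii u hu
  have hn : ∀ i, ‖r i • u i‖ = r i := fun i => by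
    rw [norm_smul, hu, mul_one, Real.norm_eq_abs, abs_of_pos (hr0 i)]
  refine ⟨fun i => r i • u i, ?_, fun i => ?_, fun i => ?_⟩
  · intro i j hij
    have h1 : r i = r j := by rw [← hn i, ← hn j]; exact congrArg norm hij
    have h2 : r i • u i = r i • u j := by
      have : r i • u i = r j • u j := hij
      rw [this, h1]
    exact hinj (smul_right_injective V (hr0 i).ne' h2)
  · show ‖r i • u i‖ ≤ 1
    rw [hn]; exact hr1 i
  · show ‖r i • u i‖ + _ = 1
    rw [hn]; exact hr i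

end Points

end Pool.Agent.W_MP_8b9c06_gt
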