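import Mathlib

set_option autoImplicit false

namespace Pool.Agent.W_MP_8b9c06_gt

open Set Filter Topology

variable {V : Type*} [NormedAddCommGroup V] [NormedSpace ℝ V]

/-- Growth of a convex function along a ray beyond `y`. -/
theorem ray_up {G : V → ℝ} (hG : ConvexOn ℝ univ G) (z y : V) {τ : ℝ} (hτ : 0 ≤ τ) :
    G y + τ * (G y - G z) ≤ G (z + (1 + τ) • (y - z)) := by
  -- y is a convex combination of z and the far point
  have h1 : 0 < 1 + τ := by linarith
  have h := hG.2 (mem_univ z) (mem_univ (z + (1 + τ) • (y - z)))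
    (show 0 ≤ τ / (1 + τ) by positivity) (show 0 ≤ 1 / (1 + τ) by positivity)
    (by field_simp; ring)
  have h2 : (τ / (1 + τ)) • z + (1 / (1 + τ)) • (z + (1 + τ) • (y - z)) = y := by
    rw [smul_add, smul_smul, ← add_assoc, ← add_smul]
    have e1 : τ / (1 + τ) + 1 / (1 + τ) = 1 := by field_simp; ring
    have e2 : 1 / (1 + τ) * (1 + τ) = 1 := by field_simp
    rw [e1, e2, one_smul, one_smul]
    abel
  rw [h2] at h
  simp only [smul_eq_mul] at h
  have h3 : G y * (1 + τ) ≤ τ * G z + G (z + (1 + τ) • (y - z)) := by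
    calc G y * (1 + τ) ≤ (τ / (1 + τ) * G z + 1 / (1 + τ) * G (z + (1 + τ) • (y - z))) * (1 + τ) :=
          mul_le_mul_of_nonneg_right h h1.le
      _ = τ * G z + G (z + (1 + τ) • (y - z)) := by field_simp
  linarith

theorem ray_down {G : V → ℝ} (hG : ConvexOn ℝ univ G) (z y : V) {τ : ℝ} (hτ : 0 ≤ τ) (hτ1 : τ ≤ 1) :
    G (z + (1 - τ) • (y - z)) ≤ G y - τ * (G y - G z) := by
  have h := hG.2 (mem_univ z) (mem_univ y) hτ (show 0 ≤ 1 - τ by linarith) (by ring)
  have h2 : τ • z + (1 - τ) • y = z + (1 - τ) • (y - z) := by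
    rw [smul_sub, sub_smul 1 τ z, one_smul]
    abel
  rw [h2] at h
  simp only [smul_eq_mul] at h
  linarith

/-- One step: a point of the level set of `h` on the ray through `y`. -/
theorem exists_level_on_ray {h : V → ℝ} (hc : Continuous h) {c τ : ℝ} (z y : V) (hτ0 : 0 ≤ τ)
    (h1 : h (z + (1 - τ) • (y - z)) ≤ c) (h2 : c ≤ h (z + (1 + τ) • (y - z))) :
    ∃ y', h y' = c ∧ dist y y' ≤ τ * ‖y - z‖ := by
  have hcont : ContinuousOn (fun t : ℝ => h (z + t • (y - z))) (Icc (1 - τ) (1 + τ)) :=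
    (hc.comp (by fun_prop)).continuousOn
  obtain ⟨t, ht, hteq⟩ := intermediate_value_Icc (by linarith) hcont ⟨h1, h2⟩
  refine ⟨z + t • (y - z), hteq, ?_⟩
  have : y - (z + t • (y - z)) = (1 - t) • (y - z) := by rw [sub_smul, one_smul]; abel
  rw [dist_eq_norm, this, norm_smul, Real.norm_eq_abs]
  refine mul_le_mul_of_nonneg_right ?_ (norm_nonneg _)
  rw [abs_le]
  constructor <;> linarith [ht.1, ht.2]

/-- Frontier of a sublevel set of a continuous convex function above its minimum. -/
theorem frontier_sublevel_convex {G : V → ℝ} (hG : ConvexOn ℝ univ G) (hGc : Continuous G) {z : V}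
    {c : ℝ} (hz : G z < c) : frontier {y | G y ≤ c} = {y | G y = c} := by
  apply Subset.antisymm
  · exact frontier_le_subset_eq hGc continuous_const
  · intro y hy
    have hy1 : G y = c := hy
    have hclosed : IsClosed {y | G y ≤ c} := isClosed_le hGc continuous_const
    rw [hclosed.frontier_eq]
    refine ⟨hy1.le, fun hint => ?_⟩
    rw [mem_interior_iff_mem_nhds] at hint
    have hcont : Continuous (fun t : ℝ => z + (1 + t) • (y - z)) := by fun_prop
    have h2 : Tendsto (fun t : ℝ => z + (1 + t) • (y - z)) (𝓝 0) (𝓝 y) := by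
      have := hcont.tendsto 0
      simpa using this
    have h3 : ∀ᶠ t : ℝ in 𝓝[>] 0, G (z + (1 + t) • (y - z)) ≤ c ∧ 0 < t :=
      ((h2.eventually hint).filter_mono nhdsWithin_le_nhds).and self_mem_nhdsWithin
    obtain ⟨t, ht1, ht2⟩ := h3.exists
    have h4 := ray_up hG z y ht2.le
    rw [hy1] at h4
    have h5 : 0 < t * (c - G z) := mul_pos ht2 (by linarith)
    linarith

end Pool.Agent.W_MP_8b9c06_gt
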