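import Mathlib

set_option autoImplicit false

namespace Pool.Agent.W_MP_8b9c06_gt

open Set Filter Topology MeasureTheory

section NoAtoms

variable {V : Type*} [NormedAddCommGroup V]

/-- A unit speed curve is 1-Lipschitz. -/
theorem unitSpeed_edist_le {γ : ℝ → V} {l : ℝ} (h : HasUnitSpeedOn γ (Icc 0 l)) {s t : ℝ}
    (hs : s ∈ Icc 0 l) (ht : t ∈ Icc 0 l) (hst : s ≤ t) :
    edist (γ t) (γ s) ≤ ENNReal.ofReal (t - s) := by
  have h1 := h hs ht
  have h2 : edist (γ t) (γ s) ≤ eVariationOn γ (Icc 0 l ∩ Icc s t) :=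
    eVariationOn.edist_le γ ⟨ht, hst, le_rfl⟩ ⟨hs, le_rfl, hst⟩
  rw [h1] at h2
  simpa using h2

theorem unitSpeed_dist_le {γ : ℝ → V} {l : ℝ} (h : HasUnitSpeedOn γ (Icc 0 l)) {s t : ℝ}
    (hs : s ∈ Icc 0 l) (ht : t ∈ Icc 0 l) (hst : s ≤ t) :
    dist (γ t) (γ s) ≤ t - s := by
  have h1 := unitSpeed_edist_le h hs ht hst
  rw [edist_dist] at h1
  exact (ENNReal.ofReal_le_ofReal_iff (by linarith)).mp h1

theorem unitSpeed_continuousOn {γ : ℝ → V} {l : ℝ} (h : HasUnitSpeedOn γ (Icc 0 l)) :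
    ContinuousOn γ (Icc 0 l) := by
  have : LipschitzOnWith 1 γ (Icc 0 l) := by
    refine LipschitzOnWith.of_dist_le_mul fun x hx y hy => ?_
    rw [NNReal.coe_one, one_mul, Real.dist_eq]
    rcases le_total x y with hxy | hxy
    · rw [dist_comm, abs_sub_comm, abs_of_nonneg (by linarith)]
      exact unitSpeed_dist_le h hx hy hxy
    · rw [abs_of_nonneg (by linarith)]
      exact unitSpeed_dist_le h hy hx hxy
  exact this.continuousOn

/-- The key estimate: the time spent at the point `a` is lost for the distance. -/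
theorem unitSpeed_key {γ : ℝ → V} {l : ℝ} (h : HasUnitSpeedOn γ (Icc 0 l)) (a : V) {s t : ℝ}
    (hs : s ∈ Icc 0 l) (ht : t ∈ Icc 0 l) (hst : s ≤ t) :
    edist (γ t) (γ s) + volume ({r ∈ Icc 0 l | γ r = a} ∩ Icc s t) ≤ ENNReal.ofReal (t - s) := by
  set Z : Set ℝ := {r ∈ Icc 0 l | γ r = a} with hZ
  have hZc : IsClosed Z := by
    have := (unitSpeed_continuousOn h).preimage_isClosed_of_isClosed isClosed_Icc
      (isClosed_singleton (x := a))
    exact this
  rcases (Z ∩ Icc s t).eq_empty_or_nonempty with he | hne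
  · rw [he, measure_empty, add_zero]
    exact unitSpeed_edist_le h hs ht hst
  · have hcomp : IsCompact (Z ∩ Icc s t) := isCompact_Icc.inter_left hZc
    obtain ⟨z, hz, hzmin⟩ := hcomp.exists_isLeast hne
    obtain ⟨z', hz', hzmax⟩ := hcomp.exists_isGreatest hne
    have hzz' : z ≤ z' := hzmin hz'
    have h1 : volume (Z ∩ Icc s t) ≤ ENNReal.ofReal (z' - z) := by
      rw [← Real.volume_Icc]
      exact measure_mono fun r hr => ⟨hzmin hr, hzmax hr⟩
    have h2 : edist (γ t) (γ s) ≤ ENNReal.ofReal (t - z') + ENNReal.ofReal (z - s) := by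
      calc edist (γ t) (γ s) ≤ edist (γ t) a + edist a (γ s) := edist_triangle _ _ _
        _ = edist (γ t) (γ z') + edist (γ z) (γ s) := by rw [hz'.1.2, hz.1.2]
        _ ≤ _ := add_le_add (unitSpeed_edist_le h hz'.1.1 ht hz'.2.2)
            (unitSpeed_edist_le h hs hz.1.1 hz.2.1)
    calc edist (γ t) (γ s) + volume (Z ∩ Icc s t)
        ≤ (ENNReal.ofReal (t - z') + ENNReal.ofReal (z - s)) + ENNReal.ofReal (z' - z) :=
          add_le_add h2 h1
      _ = ENNReal.ofReal (t - s) := by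
          rw [← ENNReal.ofReal_add (by linarith [hz'.2.2]) (by linarith [hz.2.1]),
            ← ENNReal.ofReal_add (by linarith [hz'.2.2, hz.2.1]) (by linarith)]
          congr 1; ring

/-- Arc length measure has no atoms. -/
theorem unitSpeed_null {γ : ℝ → V} {l : ℝ} (hl : 0 ≤ l) (h : HasUnitSpeedOn γ (Icc 0 l)) (a : V) :
    volume {r ∈ Icc 0 l | γ r = a} = 0 := by
  set Z : Set ℝ := {r ∈ Icc 0 l | γ r = a} with hZ
  have h0 : (0 : ℝ) ∈ Icc 0 l := ⟨le_rfl, hl⟩
  have hll : l ∈ Icc 0 l := ⟨hl, le_rfl⟩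
  have hvar : eVariationOn γ (Icc 0 l) = ENNReal.ofReal l := by
    have := h h0 hll
    rw [inter_self] at this
    simpa using this
  have key : ∀ p : ℕ × { u : ℕ → ℝ // Monotone u ∧ ∀ i, u i ∈ Icc 0 l },
      (∑ i ∈ Finset.range p.1, edist (γ (p.2.1 (i + 1))) (γ (p.2.1 i))) + volume Z
        ≤ ENNReal.ofReal l := by
    rintro ⟨n, u, hu, hus⟩
    have hind : ∀ n : ℕ, (∑ i ∈ Finset.range n, edist (γ (u (i + 1))) (γ (u i)))
        + volume (Z ∩ Icc 0 (u n)) ≤ ENNReal.ofReal (u n) := by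
      intro n
      induction n with
      | zero =>
        rw [Finset.sum_range_zero, zero_add]
        calc volume (Z ∩ Icc 0 (u 0)) ≤ volume (Icc 0 (u 0)) := measure_mono inter_subset_right
          _ = ENNReal.ofReal (u 0) := by rw [Real.volume_Icc, sub_zero]
      | succ n ih =>
        have hk := unitSpeed_key h a (hus n) (hus (n + 1)) (hu (Nat.le_succ n))
        have hsub : Z ∩ Icc 0 (u (n + 1)) ⊆ (Z ∩ Icc 0 (u n)) ∪ (Z ∩ Icc (u n) (u (n + 1))) := by
          rintro r ⟨hr, hr0, hr1⟩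
          rcases le_total r (u n) with hc | hc
          · exact Or.inl ⟨hr, hr0, hc⟩
          · exact Or.inr ⟨hr, hc, hr1⟩
        have hm := (measure_mono (μ := volume) hsub).trans (measure_union_le _ _)
        rw [Finset.sum_range_succ]
        calc (∑ i ∈ Finset.range n, edist (γ (u (i + 1))) (γ (u i)) + edist (γ (u (n + 1))) (γ (u n)))
              + volume (Z ∩ Icc 0 (u (n + 1)))
            ≤ (∑ i ∈ Finset.range n, edist (γ (u (i + 1))) (γ (u i)) + edist (γ (u (n + 1))) (γ (u n)))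
              + (volume (Z ∩ Icc 0 (u n)) + volume (Z ∩ Icc (u n) (u (n + 1)))) :=
                add_le_add le_rfl hm
          _ = (∑ i ∈ Finset.range n, edist (γ (u (i + 1))) (γ (u i)) + volume (Z ∩ Icc 0 (u n)))
              + (edist (γ (u (n + 1))) (γ (u n)) + volume (Z ∩ Icc (u n) (u (n + 1)))) := by ring
          _ ≤ ENNReal.ofReal (u n) + ENNReal.ofReal (u (n + 1) - u n) := add_le_add ih hk
          _ = ENNReal.ofReal (u (n + 1)) := by
              rw [← ENNReal.ofReal_add (hus n).1 (by linarith [hu (Nat.le_succ n)])]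
              congr 1; ring
    have hk := unitSpeed_key h a (hus n) hll (hus n).2
    have hsub : Z ⊆ (Z ∩ Icc 0 (u n)) ∪ (Z ∩ Icc (u n) l) := by
      intro r hr
      rcases le_total r (u n) with hc | hc
      · exact Or.inl ⟨hr, hr.1.1, hc⟩
      · exact Or.inr ⟨hr, hc, hr.1.2⟩
    have hm := (measure_mono (μ := volume) hsub).trans (measure_union_le _ _)
    calc (∑ i ∈ Finset.range n, edist (γ (u (i + 1))) (γ (u i))) + volume Z
        ≤ (∑ i ∈ Finset.range n, edist (γ (u (i + 1))) (γ (u i)))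
            + (volume (Z ∩ Icc 0 (u n)) + volume (Z ∩ Icc (u n) l)) := add_le_add le_rfl hm
      _ = (∑ i ∈ Finset.range n, edist (γ (u (i + 1))) (γ (u i)) + volume (Z ∩ Icc 0 (u n)))
            + volume (Z ∩ Icc (u n) l) := by ring
      _ ≤ ENNReal.ofReal (u n) + ENNReal.ofReal (l - u n) :=
          add_le_add (hind n) (le_trans (by exact le_add_self) hk)
      _ = ENNReal.ofReal l := by
          rw [← ENNReal.ofReal_add (hus n).1 (by linarith [(hus n).2])]
          congr 1; ring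
  have htot : eVariationOn γ (Icc 0 l) + volume Z ≤ ENNReal.ofReal l := by
    unfold eVariationOn
    have : Nonempty (ℕ × { u : ℕ → ℝ // Monotone u ∧ ∀ i, u i ∈ Icc 0 l }) :=
      ⟨(0, ⟨fun _ => 0, monotone_const, fun _ => h0⟩)⟩
    rw [ENNReal.iSup_add]
    exact iSup_le key
  rw [hvar] at htot
  have hfin : ENNReal.ofReal l ≠ ⊤ := ENNReal.ofReal_ne_top
  have h3 : ENNReal.ofReal l + volume Z ≤ ENNReal.ofReal l + 0 := by simpa using htot
  exact nonpos_iff_eq_zero.mp ((ENNReal.add_le_add_iff_left hfin).mp h3)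

end NoAtoms

end Pool.Agent.W_MP_8b9c06_gt
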