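import Mathlib

set_option autoImplicit false

namespace Pool.Agent.W_MP_8b9c06_gt

/-- The Euclidean plane. -/
abbrev Plane : Type := EuclideanSpace ℝ (Fin 2)

/-- `S` is a multifocal ellipse: the level set `{z : |z - x₁| + ⋯ + |z - xₙ| = c}` for `n ≥ 1`
pairwise distinct foci `xᵢ` and a constant `c` that exceeds the minimum of the sum of distances. -/
def IsMultifocalEllipse (S : Set Plane) : Prop :=
  ∃ (n : ℕ) (x : Fin n → Plane) (c : ℝ), 0 < n ∧ Function.Injective x ∧
    (∃ z : Plane, ∑ i, dist z (x i) < c) ∧ S = {z : Plane | ∑ i, dist z (x i) = c}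

/-- `C` is a closed convex curve: the boundary of a compact convex set with nonempty interior. -/
def IsClosedConvexCurve (C : Set Plane) : Prop :=
  ∃ K : Set Plane, Convex ℝ K ∧ IsCompact K ∧ (interior K).Nonempty ∧ C = frontier K

/-- `C` is approximable: for every `ε > 0` there is a multifocal ellipse at Hausdorff distance less
than `ε` from `C`. -/
def IsApproximable (C : Set Plane) : Prop :=
  ∀ ε : ℝ, 0 < ε → ∃ S : Set Plane, IsMultifocalEllipse S ∧
    Metric.hausdorffEDist S C < ENNReal.ofReal ε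

/-- `C` is of generalized-ellipse form: `C = {x : F x = c}` with `c > min F`, where
`F x = ∫_E |x - y| dA(y) + ∫_Γ |x - y| dl(y) + ∑ⱼ |x - pⱼ|` for a bounded open set `E`, a
rectifiable curve `Γ` of length `ℓ`, given by its arc length parametrization
`γ : [0, ℓ] → ℝ²`, and finitely many points `p₁, …, pₘ`. The three parts may be absent
(`E = ∅`, `ℓ = 0`, `m = 0`). -/
def IsGeneralizedEllipse (C : Set Plane) : Prop :=
  ∃ (E : Set Plane) (ℓ : ℝ) (γ : ℝ → Plane) (m : ℕ) (p : Fin m → Plane) (F : Plane → ℝ) (c : ℝ),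
    IsOpen E ∧ Bornology.IsBounded E ∧ 0 ≤ ℓ ∧ HasUnitSpeedOn γ (Set.Icc 0 ℓ) ∧
    (∀ x : Plane, F x = (∫ y in E, dist x y) + (∫ s in (0 : ℝ)..ℓ, dist x (γ s))
      + ∑ j, dist x (p j)) ∧
    (∃ z : Plane, F z < c) ∧ C = {x : Plane | F x = c}

/-- `C` is the level set, above the minimum, of a weighted sum of distances to countably many
points: `C = {z : ∑ᵢ aᵢ |z - xᵢ| = c}` with weights `aᵢ > 0` of finite sum, points `xᵢ` in a bounded
set, and `c` greater than the minimum of `∑ᵢ aᵢ |z - xᵢ|`. -/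
def IsCountableFociEllipse (C : Set Plane) : Prop :=
  ∃ (a : ℕ → ℝ) (x : ℕ → Plane) (c : ℝ), (∀ i, 0 < a i) ∧ Summable a ∧
    Bornology.IsBounded (Set.range x) ∧ (∃ z : Plane, ∑' i, a i * dist z (x i) < c) ∧
    C = {z : Plane | ∑' i, a i * dist z (x i) = c}

end Pool.Agent.W_MP_8b9c06_gt
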