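import Mathlib

set_option autoImplicit false

namespace Pool.Agent.W_MP_8b9c06_gt

open Set Filter Topology MeasureTheory

section Potential

variable {α : Type*} [MeasurableSpace α] {V : Type*} [NormedAddCommGroup V] [InnerProductSpace ℝ V]

theorem integrable_dist {μ : Measure α} [IsFiniteMeasure μ] {g : α → V} (hg : Integrable g μ) (x : V) :
    Integrable (fun s => dist x (g s)) μ := by
  simp_rw [dist_eq_norm]
  exact ((integrable_const x).sub hg).norm

theorem potential_lipschitz {μ : Measure α} [IsFiniteMeasure μ] {g : α → V} (hg : Integrable g μ) :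
    LipschitzWith (μ.real univ).toNNReal (fun x => ∫ s, dist x (g s) ∂μ) := by
  refine LipschitzWith.of_dist_le_mul fun x y => ?_
  rw [Real.coe_toNNReal _ measureReal_nonneg, Real.dist_eq,
    ← integral_sub (integrable_dist hg x) (integrable_dist hg y)]
  have h1 : ∀ᵐ s ∂μ, ‖dist x (g s) - dist y (g s)‖ ≤ dist x y := by
    refine Eventually.of_forall fun s => ?_
    rw [Real.norm_eq_abs]
    exact abs_dist_sub_le x y (g s)
  have := norm_integral_le_of_norm_le_const h1
  rw [Real.norm_eq_abs] at this
  rw [mul_comm]
  exact this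

theorem potential_continuous {μ : Measure α} [IsFiniteMeasure μ] {g : α → V} (hg : Integrable g μ) :
    Continuous (fun x => ∫ s, dist x (g s) ∂μ) := (potential_lipschitz hg).continuous

theorem convexOn_dist_point (p : V) : ConvexOn ℝ univ (fun x : V => dist x p) := convexOn_univ_dist p

theorem potential_convex {μ : Measure α} [IsFiniteMeasure μ] {g : α → V} (hg : Integrable g μ) :
    ConvexOn ℝ univ (fun x => ∫ s, dist x (g s) ∂μ) := by
  refine ⟨convex_univ, fun x _ y _ a b ha hb hab => ?_⟩
  have h1 : a • (∫ s, dist x (g s) ∂μ) + b • (∫ s, dist y (g s) ∂μ)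
      = ∫ s, (a • dist x (g s) + b • dist y (g s)) ∂μ := by
    have h2 : Integrable (fun s => a • dist x (g s)) μ := (integrable_dist hg x).smul a
    have h3 : Integrable (fun s => b • dist y (g s)) μ := (integrable_dist hg y).smul b
    rw [integral_add h2 h3, integral_smul, integral_smul]
  rw [h1]
  refine integral_mono (integrable_dist hg _)
    (((integrable_dist hg x).smul a).add ((integrable_dist hg y).smul b)) fun s => ?_
  exact (convexOn_dist_point (g s)).2 (mem_univ x) (mem_univ y) ha hb hab

theorem potential_hasFDerivAt [FiniteDimensional ℝ V] {μ : Measure α} [IsFiniteMeasure μ] {g : α → V} (hg : Integrable g μ)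
    {a : V} (ha : ∀ᵐ s ∂μ, g s ≠ a) :
    DifferentiableAt ℝ (fun x => ∫ s, dist x (g s) ∂μ) a := by
  let _ : MeasurableSpace V := borel V
  have : BorelSpace V := ⟨rfl⟩
  have hmeas : AEMeasurable (fun s => a - g s) μ :=
    ((aestronglyMeasurable_const (b := a)).sub hg.aestronglyMeasurable).aemeasurable
  have h := hasFDerivAt_integral_of_dominated_loc_of_lip (𝕜 := ℝ) (μ := μ)
    (F := fun (x : V) (s : α) => dist x (g s))
    (F' := fun s => fderiv ℝ (fun v : V => ‖v‖) (a - g s))
    (x₀ := a) (s := univ) (bound := fun _ => 1) univ_mem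
    (Eventually.of_forall fun x => (integrable_dist hg x).aestronglyMeasurable)
    (integrable_dist hg a)
    ((measurable_fderiv ℝ (fun v : V => ‖v‖)).comp_aemeasurable hmeas).aestronglyMeasurable
    (Eventually.of_forall fun s => by
      refine LipschitzWith.lipschitzOnWith ?_
      refine LipschitzWith.of_dist_le_mul fun x y => ?_
      rw [Real.dist_eq]
      have : ((Real.nnabs (1 : ℝ) : NNReal) : ℝ) = 1 := by simp
      rw [this, one_mul]
      exact abs_dist_sub_le x y (g s))
    (integrable_const _)
    (ha.mono fun s hs => by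
      have hne : a - g s ≠ 0 := sub_ne_zero.mpr (Ne.symm hs)
      have h1 : HasFDerivAt (fun v : V => ‖v‖) (fderiv ℝ (fun v : V => ‖v‖) (a - g s)) (a - g s) :=
        (differentiableAt_id.norm ℝ hne).hasFDerivAt
      have h2 : HasFDerivAt (fun x : V => x - g s) (ContinuousLinearMap.id ℝ V) a :=
        (hasFDerivAt_id a).sub_const (g s)
      have h3 := h1.comp a h2
      rw [ContinuousLinearMap.comp_id] at h3
      simp only [dist_eq_norm]
      exact h3)
  exact h.2.differentiableAt

end Potential

end Pool.Agent.W_MP_8b9c06_gt
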