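import Pool.Agent.W_MP_8b9c06_gt.Defs
import Pool.Agent.W_MP_8b9c06_gt.Convex
import Pool.Agent.W_MP_8b9c06_gt.Potential

set_option autoImplicit false

namespace Pool.Agent.W_MP_8b9c06_gt

open Set Filter Topology MeasureTheory

/-- the point `(a, b)` -/
noncomputable def pt (a b : ℝ) : Plane := !₂[a, b]

theorem norm_sq_eq (v : Plane) : ‖v‖ ^ 2 = v 0 ^ 2 + v 1 ^ 2 := by
  rw [EuclideanSpace.norm_sq_eq]
  simp [Fin.sum_univ_two]

theorem norm_ge_abs_one (v : Plane) : |v 1| ≤ ‖v‖ := by
  have h := norm_sq_eq v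
  exact abs_le_of_sq_le_sq (by nlinarith [sq_nonneg (v 0)]) (norm_nonneg v)

theorem norm_ge_abs_zero (v : Plane) : |v 0| ≤ ‖v‖ := by
  have h := norm_sq_eq v
  exact abs_le_of_sq_le_sq (by nlinarith [sq_nonneg (v 1)]) (norm_nonneg v)

theorem norm_le_abs_add (v : Plane) : ‖v‖ ≤ |v 0| + |v 1| := by
  have h := norm_sq_eq v
  refine abs_le_of_sq_le_sq' ?_ (by positivity) |>.2
  nlinarith [sq_abs (v 0), sq_abs (v 1), mul_nonneg (abs_nonneg (v 0)) (abs_nonneg (v 1))]

theorem pt_zero (a b : ℝ) : (pt a b) 0 = a := rfl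
theorem pt_one (a b : ℝ) : (pt a b) 1 = b := rfl

/-- the three points `(-1, 0)`, `(1, 0)` -/
noncomputable def P1 : Plane := pt (-1) 0
noncomputable def P2 : Plane := pt 1 0

/-- `H(x) = |x - p| + |x - q| - x₂` -/
noncomputable def H (x : Plane) : ℝ := dist x P1 + dist x P2 - x 1

theorem H_continuous : Continuous H := by
  unfold H
  fun_prop

theorem coord_one_linear : IsLinearMap ℝ (fun x : Plane => x 1) :=
  ⟨fun _ _ => rfl, fun _ _ => rfl⟩

theorem H_convex : ConvexOn ℝ univ H := by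
  have h1 : ConvexOn ℝ univ (fun x : Plane => dist x P1) := convexOn_univ_dist P1
  have h2 : ConvexOn ℝ univ (fun x : Plane => dist x P2) := convexOn_univ_dist P2
  refine ⟨convex_univ, fun x _ y _ a b ha hb hab => ?_⟩
  have e1 := h1.2 (mem_univ x) (mem_univ y) ha hb hab
  have e2 := h2.2 (mem_univ x) (mem_univ y) ha hb hab
  have e3 : (a • x + b • y) 1 = a * x 1 + b * y 1 := rfl
  simp only [smul_eq_mul] at e1 e2
  unfold H
  rw [e3]
  simp only [smul_eq_mul]
  linarith

/-- the center -/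
noncomputable def Z : Plane := pt 0 (1 / 2)

theorem H_Z : H Z < 19 / 10 := by
  have h1 : dist Z P1 < 6 / 5 := by
    rw [dist_eq_norm]
    have h := norm_sq_eq (Z - P1)
    have e0 : (Z - P1) 0 = 1 := by show (0 : ℝ) - (-1) = 1; norm_num
    have e1 : (Z - P1) 1 = 1 / 2 := by show (1 / 2 : ℝ) - 0 = 1 / 2; norm_num
    rw [e0, e1] at h
    nlinarith [norm_nonneg (Z - P1)]
  have h2 : dist Z P2 < 6 / 5 := by
    rw [dist_eq_norm]
    have h := norm_sq_eq (Z - P2)
    have e0 : (Z - P2) 0 = -1 := by show (0 : ℝ) - 1 = -1; norm_num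
    have e1 : (Z - P2) 1 = 1 / 2 := by show (1 / 2 : ℝ) - 0 = 1 / 2; norm_num
    rw [e0, e1] at h
    nlinarith [norm_nonneg (Z - P2)]
  have h3 : Z 1 = 1 / 2 := rfl
  unfold H
  rw [h3]
  linarith

theorem norm_P1 : ‖P1‖ = 1 := by
  have h := norm_sq_eq P1
  have e0 : P1 0 = -1 := rfl
  have e1 : P1 1 = 0 := rfl
  rw [e0, e1] at h
  nlinarith [norm_nonneg P1]

theorem norm_P2 : ‖P2‖ = 1 := by
  have h := norm_sq_eq P2
  have e0 : P2 0 = 1 := rfl
  have e1 : P2 1 = 0 := rfl
  rw [e0, e1] at h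
  nlinarith [norm_nonneg P2]

theorem P1_add_P2 : P1 + P2 = 0 := by
  ext i
  fin_cases i
  · show (-1 : ℝ) + 1 = 0; norm_num
  · show (0 : ℝ) + 0 = 0; norm_num

theorem norm_le_H (x : Plane) : ‖x‖ ≤ H x + 2 := by
  have h1 : ‖x‖ ≤ dist x P1 + 1 := by
    rw [dist_eq_norm]
    have := norm_sub_norm_le x P1
    rw [norm_P1] at this
    linarith
  have h2 : ‖x‖ ≤ dist x P2 + 1 := by
    rw [dist_eq_norm]
    have := norm_sub_norm_le x P2
    rw [norm_P2] at this
    linarith
  have h3 := norm_ge_abs_one x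
  have h4 := le_abs_self (x 1)
  unfold H
  linarith

/-- far focus -/
theorem far_ge (x : Plane) (R : ℝ) : R - x 1 ≤ dist x (pt 0 R) := by
  rw [dist_comm, dist_eq_norm]
  have h := norm_ge_abs_one (pt 0 R - x)
  have e1 : (pt 0 R - x) 1 = R - x 1 := rfl
  rw [e1] at h
  exact (le_abs_self _).trans h

theorem far_le {x : Plane} {R B : ℝ} (hB : ‖x‖ ≤ B) (hR : B < R) :
    dist x (pt 0 R) ≤ R - x 1 + B ^ 2 / (2 * (R - B)) := by
  rw [dist_comm, dist_eq_norm]
  have h := norm_sq_eq (pt 0 R - x)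
  have e0 : (pt 0 R - x) 0 = 0 - x 0 := rfl
  have e1 : (pt 0 R - x) 1 = R - x 1 := rfl
  rw [e0, e1] at h
  have h0 := norm_ge_abs_zero x
  have h1 := norm_ge_abs_one x
  have h2 := le_abs_self (x 1)
  have hx0 : x 0 ^ 2 ≤ B ^ 2 := by
    rw [← sq_abs (x 0)]
    exact pow_le_pow_left₀ (abs_nonneg _) (h0.trans hB) 2
  have hpos : 0 < R - B := by linarith
  have hA : R - B ≤ R - x 1 := by linarith
  have hq : 0 ≤ B ^ 2 / (2 * (R - B)) := by positivity
  refine abs_le_of_sq_le_sq' ?_ (by linarith) |>.2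
  rw [h]
  have h3 : B ^ 2 ≤ 2 * (R - x 1) * (B ^ 2 / (2 * (R - B))) := by
    have h4 : 2 * (R - B) * (B ^ 2 / (2 * (R - B))) = B ^ 2 := by field_simp
    nlinarith
  nlinarith

theorem segment_approximable : IsApproximable {x | H x = 2} := by
  intro ε hε
  -- parameters
  set τ : ℝ := min (1 / 2) (ε / 20) with hτ
  have hτ0 : 0 < τ := by rw [hτ]; positivity
  have hτ1 : τ ≤ 1 / 2 := min_le_left _ _
  have hτ2 : τ ≤ ε / 20 := min_le_right _ _
  -- δ with small ratio
  set δ : ℝ := τ / 40 with hδ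
  have hδ0 : 0 < δ := by positivity
  -- R large so that B^2/(2(R-B)) ≤ δ with B = 10
  set R : ℝ := 10 + 100 / (2 * δ) with hR
  have hR10 : 10 < R := by
    have : 0 < 100 / (2 * δ) := by positivity
    rw [hR]; linarith
  have hRδ : (10 : ℝ) ^ 2 / (2 * (R - 10)) = δ := by
    rw [hR]; field_simp; ring
  let h : Plane → ℝ := fun x => dist x P1 + dist x P2 + dist x (pt 0 R) - R
  have hcont : Continuous h := by
    show Continuous fun x => dist x P1 + dist x P2 + dist x (pt 0 R) - R
    fun_prop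
  have hlo : ∀ x, H x ≤ h x := by
    intro x
    have := far_ge x R
    show dist x P1 + dist x P2 - x 1 ≤ dist x P1 + dist x P2 + dist x (pt 0 R) - R
    linarith
  have hup : ∀ x, ‖x‖ ≤ 10 → h x ≤ H x + δ := by
    intro x hx
    have := far_le hx hR10
    rw [hRδ] at this
    show dist x P1 + dist x P2 + dist x (pt 0 R) - R ≤ dist x P1 + dist x P2 - x 1 + δ
    linarith
  have hZn : ‖Z‖ ≤ 1 := by
    have h1 := norm_le_abs_add Z
    have e0 : Z 0 = 0 := rfl
    have e1 : Z 1 = 1 / 2 := rfl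
    rw [e0, e1] at h1
    norm_num at h1
    linarith
  have hHZ := H_Z
  -- norm bound along the rays
  have hray : ∀ (y : Plane) (s : ℝ), ‖y‖ ≤ 4 → 0 ≤ s → s ≤ 3 / 2 → ‖Z + s • (y - Z)‖ ≤ 10 := by
    intro y s hy hs0 hs1
    calc ‖Z + s • (y - Z)‖ ≤ ‖Z‖ + ‖s • (y - Z)‖ := norm_add_le _ _
      _ ≤ 1 + s * 5 := by
          rw [norm_smul, Real.norm_of_nonneg hs0]
          have : ‖y - Z‖ ≤ 5 := (norm_sub_le _ _).trans (by linarith)
          have := mul_le_mul_of_nonneg_left this hs0
          linarith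
      _ ≤ 10 := by linarith
  refine ⟨{x | h x = 2}, ?_, ?_⟩
  · refine ⟨3, ![P1, P2, pt 0 R], 2 + R, by norm_num, ?_, ⟨Z, ?_⟩, ?_⟩
    · -- injectivity
      have d01 : P1 ≠ P2 := by
        intro he
        have := congrArg (fun v : Plane => v 0) he
        have e1 : P1 0 = -1 := rfl
        have e2 : P2 0 = 1 := rfl
        simp only [e1, e2] at this
        norm_num at this
      have d02 : P1 ≠ pt 0 R := by
        intro he
        have := congrArg (fun v : Plane => v 0) he
        have e1 : P1 0 = -1 := rfl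
        have e2 : (pt 0 R) 0 = 0 := rfl
        simp only [e1, e2] at this
        norm_num at this
      have d12 : P2 ≠ pt 0 R := by
        intro he
        have := congrArg (fun v : Plane => v 0) he
        have e1 : P2 0 = 1 := rfl
        have e2 : (pt 0 R) 0 = 0 := rfl
        simp only [e1, e2] at this
        norm_num at this
      intro i j hij
      fin_cases i <;> fin_cases j <;> simp_all [Matrix.cons_val_zero, Matrix.cons_val_one]
    · rw [Fin.sum_univ_three]
      have h1 := hup Z (by linarith)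
      have h2 : h Z < 2 := by
        have : δ ≤ 1 / 80 := by rw [hδ]; linarith
        linarith
      have h3 : h Z = dist Z P1 + dist Z P2 + dist Z (pt 0 R) - R := rfl
      rw [h3] at h2
      simp only [Matrix.cons_val_zero, Matrix.cons_val_one, Matrix.cons_val]
      linarith
    · ext x
      rw [Set.mem_ofPred_eq, Set.mem_ofPred_eq, Fin.sum_univ_three]
      show dist x P1 + dist x P2 + dist x (pt 0 R) - R = 2 ↔ dist x P1 + dist x P2 + dist x (pt 0 R) = 2 + R
      constructor <;> intro h <;> linarith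
  · have key : Metric.hausdorffEDist {x | h x = 2} {x | H x = 2} ≤ ENNReal.ofReal (τ * 5) := by
      refine Metric.hausdorffEDist_le_of_mem_edist ?_ ?_
      · intro y hy
        have hy1 : h y = 2 := hy
        have hHy : H y ≤ 2 := by linarith [hlo y]
        have hyn : ‖y‖ ≤ 4 := by linarith [norm_le_H y]
        have hHy2 : 2 - δ ≤ H y := by linarith [hup y (by linarith)]
        have r1 := ray_up H_convex Z y hτ0.le
        have r2 := ray_down H_convex Z y hτ0.le (by linarith)
        obtain ⟨y', hy', hd⟩ := exists_level_on_ray H_continuous (c := 2) Z y hτ0.le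
          (by nlinarith) (by nlinarith)
        refine ⟨y', hy', ?_⟩
        rw [edist_dist]
        refine ENNReal.ofReal_le_ofReal (hd.trans ?_)
        refine mul_le_mul_of_nonneg_left ?_ hτ0.le
        exact (norm_sub_le _ _).trans (by linarith)
      · intro y hy
        have hy1 : H y = 2 := hy
        have hyn : ‖y‖ ≤ 4 := by linarith [norm_le_H y]
        have r1 := ray_up H_convex Z y hτ0.le
        have r2 := ray_down H_convex Z y hτ0.le (by linarith)
        have b1 := hlo (Z + (1 + τ) • (y - Z))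
        have b2 := hup (Z + (1 - τ) • (y - Z)) (hray y (1 - τ) hyn (by linarith) (by linarith))
        obtain ⟨y', hy', hd⟩ := exists_level_on_ray hcont (c := 2) Z y hτ0.le
          (by nlinarith) (by nlinarith)
        refine ⟨y', hy', ?_⟩
        rw [edist_dist]
        refine ENNReal.ofReal_le_ofReal (hd.trans ?_)
        refine mul_le_mul_of_nonneg_left ?_ hτ0.le
        exact (norm_sub_le _ _).trans (by linarith)
    refine key.trans_lt ?_
    rw [ENNReal.ofReal_lt_ofReal_iff hε]
    linarith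

theorem segment_closedConvexCurve : IsClosedConvexCurve {x | H x = 2} := by
  have hHZ : H Z < 2 := by linarith [H_Z]
  refine ⟨{x | H x ≤ 2}, ?_, ?_, ?_, (frontier_sublevel_convex H_convex H_continuous hHZ).symm⟩
  · have := H_convex.convex_le 2
    simpa using this
  · refine Metric.isCompact_of_isClosed_isBounded (isClosed_le H_continuous continuous_const) ?_
    refine (Metric.isBounded_closedBall (x := (0 : Plane)) (r := 4)).subset fun z hz => ?_
    rw [mem_closedBall_zero_iff]
    have h1 : H z ≤ 2 := hz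
    linarith [norm_le_H z]
  · refine ⟨Z, ?_⟩
    rw [mem_interior]
    exact ⟨{z | H z < 2}, fun z (hz : H z < 2) => (show H z ≤ 2 from hz.le),
      isOpen_lt H_continuous continuous_const, hHZ⟩

theorem H_P1 : H P1 = 2 := by
  have h1 : dist P1 P2 = 2 := by
    rw [dist_eq_norm]
    have h := norm_sq_eq (P1 - P2)
    have e0 : (P1 - P2) 0 = -2 := by show (-1 : ℝ) - 1 = -2; norm_num
    have e1 : (P1 - P2) 1 = 0 := by show (0 : ℝ) - 0 = 0; norm_num
    rw [e0, e1] at h
    nlinarith [norm_nonneg (P1 - P2)]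
  have h2 : P1 1 = 0 := rfl
  unfold H
  rw [h1, h2, dist_self]; norm_num

theorem H_P2 : H P2 = 2 := by
  have h1 : dist P2 P1 = 2 := by
    rw [dist_eq_norm]
    have h := norm_sq_eq (P2 - P1)
    have e0 : (P2 - P1) 0 = 2 := by show (1 : ℝ) - (-1) = 2; norm_num
    have e1 : (P2 - P1) 1 = 0 := by show (0 : ℝ) - 0 = 0; norm_num
    rw [e0, e1] at h
    nlinarith [norm_nonneg (P2 - P1)]
  have h2 : P2 1 = 0 := rfl
  unfold H
  rw [h1, h2, dist_self]; norm_num

theorem H_zero : H 0 = 2 := by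
  have h2 : (0 : Plane) 1 = 0 := rfl
  unfold H
  rw [dist_eq_norm, dist_eq_norm, zero_sub, zero_sub, norm_neg, norm_neg, norm_P1, norm_P2, h2]
  norm_num

/-- equality in the triangle inequality forces `y` to be on the axis -/
theorem on_axis {y : Plane} (h : ‖P1 - y‖ + ‖P2 - y‖ = 2 * ‖y‖) : y 1 = 0 := by
  have h1 := norm_sq_eq (P1 - y)
  have h2 := norm_sq_eq (P2 - y)
  have h3 := norm_sq_eq y
  have a0 : (P1 - y) 0 = -1 - y 0 := rfl
  have a1 : (P1 - y) 1 = 0 - y 1 := rfl
  have b0 : (P2 - y) 0 = 1 - y 0 := rfl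
  have b1 : (P2 - y) 1 = 0 - y 1 := rfl
  rw [a0, a1] at h1
  rw [b0, b1] at h2
  set u := ‖P1 - y‖
  set v := ‖P2 - y‖
  set r := ‖y‖
  have hu := norm_nonneg (P1 - y)
  have hv := norm_nonneg (P2 - y)
  have hr := norm_nonneg y
  -- u + v = 2 r, u² + v² = 2 + 2 r²  ⟹ 2uv = 4r² - 2 - 2r² = 2r² - 2, so uv = r² - 1
  have huv : u * v = r ^ 2 - 1 := by nlinarith
  -- (uv)² = u² v² = (r² + 1)² - 4 y0²
  have hsq : (u * v) ^ 2 = (r ^ 2 + 1) ^ 2 - 4 * (y 0) ^ 2 := by
    rw [mul_pow, h1, h2, h3]; ring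
  rw [huv] at hsq
  -- so 4 r² = 4 y0², y1 = 0
  have h4 : (y 1) ^ 2 = 0 := by nlinarith
  exact pow_eq_zero_iff (two_ne_zero) |>.mp h4

theorem not_potential (μ : Measure Plane) [IsFiniteMeasure μ] (hμ : Integrable (fun y : Plane => ‖y‖) μ)
    (c : ℝ) (hc : ∃ z : Plane, ∫ y, dist z y ∂μ < c) :
    {x | H x = 2} ≠ {x : Plane | ∫ y, dist x y ∂μ = c} := by
  intro heq
  have hid : Integrable (fun y : Plane => y) μ :=
    (integrable_norm_iff aestronglyMeasurable_id).mp hμ
  have hint : ∀ x : Plane, Integrable (fun y => dist x y) μ := fun x => integrable_dist hid x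
  set F : Plane → ℝ := fun x => ∫ y, dist x y ∂μ with hF
  have hconv : ConvexOn ℝ univ F := potential_convex hid
  have hmem : ∀ x, H x = 2 → F x = c := fun x hx => by
    have : x ∈ {x | H x = 2} := hx
    rw [heq] at this
    exact this
  have f1 := hmem P1 H_P1
  have f2 := hmem P2 H_P2
  have f0 := hmem 0 H_zero
  -- μ is concentrated on the axis
  have hae : ∀ᵐ y ∂μ, y 1 = 0 := by
    have hnn : ∀ y : Plane, 0 ≤ dist P1 y + dist P2 y - 2 * dist 0 y := by
      intro y
      have h1 : 2 * dist 0 y = ‖(P1 - y) + (P2 - y)‖ := by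
        have : (P1 - y) + (P2 - y) = (2 : ℝ) • (0 - y) := by
          have e : (P1 - y) + (P2 - y) = (P1 + P2) - y - y := by abel
          rw [e, P1_add_P2, two_smul]
          abel
        rw [this, norm_smul, dist_eq_norm]
        norm_num
      have h2 := norm_add_le (P1 - y) (P2 - y)
      rw [dist_eq_norm P1, dist_eq_norm P2]
      linarith
    have hI : ∫ y, (dist P1 y + dist P2 y - 2 * dist 0 y) ∂μ = 0 := by
      have i1 : Integrable (fun y => dist P1 y + dist P2 y) μ := (hint P1).add (hint P2)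
      have i2 : Integrable (fun y => 2 * dist (0 : Plane) y) μ := (hint 0).const_mul 2
      rw [integral_sub i1 i2, integral_add (hint P1) (hint P2), integral_const_mul]
      have e1 : ∫ y, dist P1 y ∂μ = c := f1
      have e2 : ∫ y, dist P2 y ∂μ = c := f2
      have e3 : ∫ y, dist (0 : Plane) y ∂μ = c := f0
      rw [e1, e2, e3]
      ring
    have i3 : Integrable (fun y => dist P1 y + dist P2 y - 2 * dist (0 : Plane) y) μ :=
      ((hint P1).add (hint P2)).sub ((hint 0).const_mul 2)
    have h0 := (integral_eq_zero_iff_of_nonneg hnn i3).mp hI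
    filter_upwards [h0] with y hy
    have hy' : dist P1 y + dist P2 y - 2 * dist (0 : Plane) y = 0 := hy
    apply on_axis
    rw [dist_eq_norm, dist_eq_norm, dist_eq_norm, zero_sub, norm_neg] at hy'
    linarith
  obtain ⟨z, hz⟩ := hc
  -- project z to the axis
  have hz' : F (pt (z 0) 0) < c := by
    refine lt_of_le_of_lt ?_ hz
    refine integral_mono_ae (hint _) (hint _) ?_
    filter_upwards [hae] with y hy
    have h1 := norm_sq_eq (pt (z 0) 0 - y)
    have h2 := norm_sq_eq (z - y)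
    have a0 : (pt (z 0) 0 - y) 0 = z 0 - y 0 := rfl
    have a1 : (pt (z 0) 0 - y) 1 = 0 - y 1 := rfl
    have b0 : (z - y) 0 = z 0 - y 0 := rfl
    have b1 : (z - y) 1 = z 1 - y 1 := rfl
    rw [a0, a1, hy] at h1
    rw [b0, b1, hy] at h2
    rw [dist_eq_norm, dist_eq_norm]
    exact abs_le_of_sq_le_sq' (by nlinarith [sq_nonneg (z 1)]) (norm_nonneg _) |>.2
  -- contradiction by convexity on the axis
  have hcomb : ∀ (p : Plane) (a b : ℝ), F p = c → 0 ≤ a → 0 < b → a + b = 1 →
      a • p + b • (pt (z 0) 0) = 0 → False := by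
    intro p a b hp ha hb hab h0
    have h1 := hconv.2 (mem_univ p) (mem_univ (pt (z 0) 0)) ha hb.le hab
    rw [h0, f0, hp] at h1
    simp only [smul_eq_mul] at h1
    have h2 := mul_lt_mul_of_pos_left hz' hb
    have h3 : a * c + b * c = c := by rw [← add_mul, hab, one_mul]
    linarith
  rcases lt_trichotomy (z 0) 0 with hneg | hzero | hpos
  · -- 0 between z and P2
    have hd : 0 < 1 - z 0 := by linarith
    refine hcomb P2 (-(z 0) / (1 - z 0)) (1 / (1 - z 0)) f2 ?_ ?_ ?_ ?_
    · exact div_nonneg (by linarith) hd.le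
    · positivity
    · field_simp; ring
    · ext i
      fin_cases i
      · show -(z 0) / (1 - z 0) * 1 + 1 / (1 - z 0) * z 0 = 0
        field_simp; ring
      · show -(z 0) / (1 - z 0) * 0 + 1 / (1 - z 0) * 0 = 0
        ring
  · have : pt (z 0) 0 = 0 := by
      rw [hzero]
      ext i
      fin_cases i <;> rfl
    rw [this, f0] at hz'
    exact lt_irrefl _ hz'
  · have hd : 0 < 1 + z 0 := by linarith
    refine hcomb P1 (z 0 / (1 + z 0)) (1 / (1 + z 0)) f1 ?_ ?_ ?_ ?_
    · positivity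
    · positivity
    · field_simp; ring
    · ext i
      fin_cases i
      · show z 0 / (1 + z 0) * (-1) + 1 / (1 + z 0) * z 0 = 0
        field_simp; ring
      · show z 0 / (1 + z 0) * 0 + 1 / (1 + z 0) * 0 = 0
        ring

end Pool.Agent.W_MP_8b9c06_gt
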