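import Pool.Agent.W_MP_8b9c06_gt.Main
import Pool.Agent.W_MP_8b9c06_gt.Segment

set_option autoImplicit false

namespace Pool.Agent.W_MP_8b9c06_gt

open Set Filter Topology MeasureTheory

theorem countableFoci {x : ℕ → Plane} (hx : ∀ i, ‖x i‖ ≤ 1) :
    IsCountableFociEllipse {z | G x z = 1} := by
  let a : ℕ → ℝ := fun n => Nat.casesOn n 1 (fun j => w j)
  let y : ℕ → Plane := fun n => Nat.casesOn n 0 (fun j => x j)
  have ha : Summable a := by
    rw [← summable_nat_add_iff 1]
    exact summable_w
  have hy : ∀ i, ‖y i‖ ≤ 1 := by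
    intro i
    cases i with
    | zero => show ‖(0 : Plane)‖ ≤ 1; simp
    | succ j => exact hx j
  have hG : ∀ z : Plane, ∑' i, a i * dist z (y i) = G x z := by
    intro z
    have hs : Summable (fun i => a i * dist z (y i)) := by
      rw [← summable_nat_add_iff 1]
      refine (summable_G hx z).congr fun j => ?_
      show w j * ‖z - x j‖ = w j * dist z (x j)
      rw [dist_eq_norm]
    rw [hs.tsum_eq_zero_add]
    show 1 * dist z (0 : Plane) + ∑' j, w j * dist z (x j) = ‖z‖ + ∑' j, w j * ‖z - x j‖
    simp only [dist_eq_norm, one_mul, sub_zero]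
  refine ⟨a, y, 1, ?_, ha, ?_, ⟨0, ?_⟩, ?_⟩
  · intro i
    cases i with
    | zero => show (0 : ℝ) < 1; norm_num
    | succ j => exact w_pos j
  · rw [isBounded_iff_forall_norm_le]
    exact ⟨1, by rintro _ ⟨i, rfl⟩; exact hy i⟩
  · rw [hG]
    linarith [G_zero_le hx]
  · ext z
    simp only [hG]

theorem corners_main : ∃ C : Set Plane, IsClosedConvexCurve C ∧ IsApproximable C ∧
    IsCountableFociEllipse C ∧ ¬ IsGeneralizedEllipse C := by
  obtain ⟨u, huinj, hu⟩ := exists_units
  obtain ⟨x, hxinj, hx, hGx⟩ := exists_points u hu huinj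
  exact ⟨{z | G x z = 1}, closedConvexCurve hx, approximable hx, countableFoci hx,
    not_generalized hxinj hx hGx⟩

/-- Every curve of generalized-ellipse form is the level set of the potential of a finite measure. -/
theorem generalized_as_measure {C : Set Plane} (hC : IsGeneralizedEllipse C) :
    ∃ μ : Measure Plane, IsFiniteMeasure μ ∧ Integrable (fun y : Plane => ‖y‖) μ ∧ ∃ c : ℝ,
      (∃ z : Plane, ∫ y, dist z y ∂μ < c) ∧ C = {x : Plane | ∫ y, dist x y ∂μ = c} := by
  obtain ⟨E, ℓ, γ, m, p, F, c, hEo, hEb, hℓ, hγ, hF, ⟨z0, hz0⟩, hCF⟩ := hC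
  have hEfin : volume E < ⊤ := hEb.measure_lt_top
  have : IsFiniteMeasure (volume.restrict E) := ⟨by rw [Measure.restrict_apply_univ]; exact hEfin⟩
  obtain ⟨R, hR⟩ := hEb.subset_closedBall (0 : Plane)
  have hintE : Integrable (fun y : Plane => y) (volume.restrict E) := by
    refine Integrable.of_bound (C := R) aestronglyMeasurable_id ?_
    refine (ae_restrict_mem hEo.measurableSet).mono fun y hy => ?_
    exact mem_closedBall_zero_iff.mp (hR hy)
  have hintγ : Integrable γ (volume.restrict (Ioc 0 ℓ)) := by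
    have h1 : ContinuousOn γ (Icc 0 ℓ) := unitSpeed_continuousOn hγ
    have h2 : IntegrableOn γ (Icc 0 ℓ) := h1.integrableOn_Icc
    exact h2.mono_set Ioc_subset_Icc_self
  have hγm : AEMeasurable γ (volume.restrict (Ioc 0 ℓ)) := hintγ.aestronglyMeasurable.aemeasurable
  have hdm : ∀ x : Plane, Measurable (fun y : Plane => dist x y) := fun x => by fun_prop
  set μ1 : Measure Plane := volume.restrict E with hμ1
  set μ2 : Measure Plane := Measure.map γ (volume.restrict (Ioc 0 ℓ)) with hμ2
  set μ3 : Measure Plane := ∑ j, Measure.dirac (p j) with hμ3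
  have hfin2 : IsFiniteMeasure μ2 := by rw [hμ2]; infer_instance
  have hfin3 : IsFiniteMeasure μ3 := by rw [hμ3]; infer_instance
  have hn1 : Integrable (fun y : Plane => ‖y‖) μ1 := hintE.norm
  have hn2 : Integrable (fun y : Plane => ‖y‖) μ2 := by
    rw [hμ2, integrable_map_measure (by fun_prop) hγm]
    exact hintγ.norm
  have hn3 : Integrable (fun y : Plane => ‖y‖) μ3 := by
    rw [hμ3, integrable_finsetSum_measure]
    exact fun j _ => integrable_dirac (by simp)
  have hid : ∀ {ν : Measure Plane}, Integrable (fun y : Plane => ‖y‖) ν → Integrable (fun y : Plane => y) ν :=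
    fun h => (integrable_norm_iff aestronglyMeasurable_id).mp h
  have hint : ∀ x : Plane, (Integrable (fun y => dist x y) μ1 ∧ Integrable (fun y => dist x y) μ2) ∧
      Integrable (fun y => dist x y) μ3 := fun x =>
    ⟨⟨integrable_dist (hid hn1) x, integrable_dist (hid hn2) x⟩, integrable_dist (hid hn3) x⟩
  have hFμ : ∀ x : Plane, ∫ y, dist x y ∂(μ1 + μ2 + μ3) = F x := by
    intro x
    rw [hF x, intervalIntegral.integral_of_le hℓ,
      integral_add_measure ((hint x).1.1.add_measure (hint x).1.2) (hint x).2,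
      integral_add_measure (hint x).1.1 (hint x).1.2]
    congr 1
    · congr 1
      rw [hμ2, integral_map hγm (hdm x).aestronglyMeasurable]
    · rw [hμ3, integral_finsetSum_measure]
      · refine Finset.sum_congr rfl fun j _ => ?_
        rw [integral_dirac]
      · exact fun j _ => integrable_dirac (by simp)
  refine ⟨μ1 + μ2 + μ3, inferInstance, (hn1.add_measure hn2).add_measure hn3, c, ⟨z0, ?_⟩, ?_⟩
  · rw [hFμ]; exact hz0
  · rw [hCF]
    ext x
    simp only [hFμ]

theorem segment_main : ∃ C : Set Plane, IsClosedConvexCurve C ∧ IsApproximable C ∧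
    ¬ IsGeneralizedEllipse C ∧
    ∀ μ : Measure Plane, IsFiniteMeasure μ → Integrable (fun y : Plane => ‖y‖) μ → ∀ c : ℝ,
      (∃ z : Plane, ∫ y, dist z y ∂μ < c) → C ≠ {x : Plane | ∫ y, dist x y ∂μ = c} := by
  refine ⟨{x | H x = 2}, segment_closedConvexCurve, segment_approximable, ?_, ?_⟩
  · intro hC
    obtain ⟨μ, hfin, hint, c, hc, heq⟩ := generalized_as_measure hC
    exact not_potential μ hint c hc heq
  · intro μ hfin hint c hc
    exact not_potential μ hint c hc

end Pool.Agent.W_MP_8b9c06_gt
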