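import Pool.Agent.W_MP_8b9c06_gt.Basic

set_option autoImplicit false

namespace Pool.Agent.W_MP_8b9c06_gt

open Set Filter Topology

variable {V : Type*} [NormedAddCommGroup V] [NormedSpace ℝ V]

theorem norm_sub_le_one_add {x : ℕ → V} (hx : ∀ i, ‖x i‖ ≤ 1) (z : V) (i : ℕ) :
    ‖z - x i‖ ≤ ‖z‖ + 1 := (norm_sub_le _ _).trans (by linarith [hx i])

theorem summable_G {x : ℕ → V} (hx : ∀ i, ‖x i‖ ≤ 1) (z : V) :
    Summable (fun j => w j * ‖z - x j‖) :=
  summable_w_mul (fun _ => norm_nonneg _) (fun j => norm_sub_le_one_add hx z j)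

theorem norm_le_G (x : ℕ → V) (z : V) : ‖z‖ ≤ G x z := by
  have := tsum_w_mul_nonneg (f := fun j => ‖z - x j‖) (fun _ => norm_nonneg _)
  unfold G; linarith

theorem G_le {x : ℕ → V} (hx : ∀ i, ‖x i‖ ≤ 1) (z : V) : G x z ≤ (8 / 7) * ‖z‖ + 1 / 7 := by
  have := tsum_w_mul_le (f := fun j => ‖z - x j‖) (fun _ => norm_nonneg _)
    (fun j => norm_sub_le_one_add hx z j)
  unfold G; linarith

theorem G_zero_le {x : ℕ → V} (hx : ∀ i, ‖x i‖ ≤ 1) : G x 0 ≤ 1 / 7 := by
  have := G_le hx 0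
  simpa using this

theorem G_le_add {x : ℕ → V} (hx : ∀ i, ‖x i‖ ≤ 1) (y z : V) :
    G x y ≤ G x z + (8 / 7) * ‖y - z‖ := by
  have h := tsum_w_mul_sub_le (f := fun j => ‖y - x j‖) (g := fun j => ‖z - x j‖)
    (B := max ‖y‖ ‖z‖ + 1) (D := ‖y - z‖) (fun _ => norm_nonneg _)
    (fun j => (norm_sub_le_one_add hx y j).trans (by linarith [le_max_left ‖y‖ ‖z‖]))
    (fun _ => norm_nonneg _)
    (fun j => (norm_sub_le_one_add hx z j).trans (by linarith [le_max_right ‖y‖ ‖z‖]))
    (fun j => by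
      calc ‖y - x j‖ = ‖(z - x j) + (y - z)‖ := by congr 1; abel
        _ ≤ ‖z - x j‖ + ‖y - z‖ := norm_add_le _ _)
  have h2 : ‖y‖ ≤ ‖z‖ + ‖y - z‖ := by
    calc ‖y‖ = ‖z + (y - z)‖ := by congr 1; abel
      _ ≤ ‖z‖ + ‖y - z‖ := norm_add_le _ _
  unfold G; linarith

theorem G_continuous {x : ℕ → V} (hx : ∀ i, ‖x i‖ ≤ 1) : Continuous (G x) := by
  have : LipschitzWith (8 / 7) (G x) := by
    refine LipschitzWith.of_dist_le_mul fun y z => ?_
    have h1 := G_le_add hx y z
    have h2 := G_le_add hx z y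
    rw [norm_sub_rev z y] at h2
    rw [Real.dist_eq, dist_eq_norm, abs_le]
    have h87 : (((8 / 7 : NNReal) : NNReal) : ℝ) = 8 / 7 := by norm_num
    rw [h87]
    constructor <;> linarith
  exact this.continuous

theorem G_convex {x : ℕ → V} (hx : ∀ i, ‖x i‖ ≤ 1) : ConvexOn ℝ univ (G x) := by
  refine ⟨convex_univ, fun y _ z _ a b ha hb hab => ?_⟩
  have h1 : ∀ p : V, ‖(a • y + b • z) - p‖ ≤ a * ‖y - p‖ + b * ‖z - p‖ := by
    intro p
    have : (a • y + b • z) - p = a • (y - p) + b • (z - p) := by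
      rw [smul_sub, smul_sub]
      have : p = a • p + b • p := by rw [← add_smul, hab, one_smul]
      nth_rewrite 1 [this]
      abel
    rw [this]
    refine (norm_add_le _ _).trans ?_
    rw [norm_smul, norm_smul, Real.norm_of_nonneg ha, Real.norm_of_nonneg hb]
  have h2 : ∑' j, w j * ‖(a • y + b • z) - x j‖
      ≤ a * ∑' j, w j * ‖y - x j‖ + b * ∑' j, w j * ‖z - x j‖ := by
    rw [← tsum_mul_left, ← tsum_mul_left,
      ← Summable.tsum_add ((summable_G hx y).mul_left a) ((summable_G hx z).mul_left b)]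
    refine Summable.tsum_le_tsum (fun j => ?_) (summable_G hx _)
      (((summable_G hx y).mul_left a).add ((summable_G hx z).mul_left b))
    have := mul_le_mul_of_nonneg_left (h1 (x j)) (w_nonneg j)
    linarith
  have h3 := h1 0
  simp only [sub_zero] at h3
  unfold G
  simp only [smul_eq_mul]
  linarith

/-- growth along rays -/
theorem G_ray {x : ℕ → V} (hx : ∀ i, ‖x i‖ ≤ 1) (z : V) {s t : ℝ} (hs : 0 ≤ s) (hst : s ≤ t) :
    G x (s • z) + (6 / 7) * (t - s) * ‖z‖ ≤ G x (t • z) := by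
  have h := tsum_w_mul_sub_le (f := fun j => ‖s • z - x j‖) (g := fun j => ‖t • z - x j‖)
    (B := max ‖s • z‖ ‖t • z‖ + 1) (D := (t - s) * ‖z‖) (fun _ => norm_nonneg _)
    (fun j => (norm_sub_le_one_add hx _ j).trans (by linarith [le_max_left ‖s • z‖ ‖t • z‖]))
    (fun _ => norm_nonneg _)
    (fun j => (norm_sub_le_one_add hx _ j).trans (by linarith [le_max_right ‖s • z‖ ‖t • z‖]))
    (fun j => by
      calc ‖s • z - x j‖ = ‖(t • z - x j) + (s - t) • z‖ := by
            congr 1; rw [sub_smul]; abel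
        _ ≤ ‖t • z - x j‖ + ‖(s - t) • z‖ := norm_add_le _ _
        _ = ‖t • z - x j‖ + (t - s) * ‖z‖ := by
            rw [norm_smul, Real.norm_eq_abs, abs_sub_comm, abs_of_nonneg (by linarith)])
  have h1 : ‖s • z‖ = s * ‖z‖ := by rw [norm_smul, Real.norm_of_nonneg hs]
  have h2 : ‖t • z‖ = t * ‖z‖ := by rw [norm_smul, Real.norm_of_nonneg (hs.trans hst)]
  unfold G
  rw [h1, h2]
  linarith

/-- the frontier of the sublevel set is the level set -/
theorem frontier_sublevel {x : ℕ → V} (hx : ∀ i, ‖x i‖ ≤ 1) :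
    frontier {z | G x z ≤ 1} = {z | G x z = 1} := by
  apply Subset.antisymm
  · exact frontier_le_subset_eq (G_continuous hx) continuous_const
  · intro z hz
    have hz1 : G x z = 1 := hz
    have hclosed : IsClosed {z | G x z ≤ 1} := isClosed_le (G_continuous hx) continuous_const
    rw [hclosed.frontier_eq]
    refine ⟨hz1.le, fun hint => ?_⟩
    have hz0 : 0 < ‖z‖ := by
      rw [norm_pos_iff]
      rintro rfl
      have := G_zero_le hx
      linarith
    rw [mem_interior_iff_mem_nhds] at hint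
    have hcont : Continuous (fun t : ℝ => t • z) := by fun_prop
    have h1 : ∀ᶠ t : ℝ in 𝓝 1, G x (t • z) ≤ 1 := by
      have h2 : Tendsto (fun t : ℝ => t • z) (𝓝 1) (𝓝 z) := by
        have := hcont.tendsto 1
        simpa using this
      exact h2.eventually hint
    have h3 : ∀ᶠ t : ℝ in 𝓝[>] 1, G x (t • z) ≤ 1 ∧ 1 < t :=
      (h1.filter_mono nhdsWithin_le_nhds).and self_mem_nhdsWithin
    obtain ⟨t, ht1, ht2⟩ := h3.exists
    have := G_ray hx z zero_le_one ht2.le
    rw [one_smul, hz1] at this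
    have h4 : 0 < (6 / 7) * (t - 1) * ‖z‖ := by
      have : 0 < t - 1 := by linarith
      positivity
    linarith

/-- Hausdorff-closeness of the level sets of `G` and of a nearby function. -/
theorem level_close {x : ℕ → V} (hx : ∀ i, ‖x i‖ ≤ 1) {h : V → ℝ} (hc : Continuous h) {δ : ℝ}
    (hδ0 : 0 < δ) (hδ : δ ≤ 1 / 14) (hh : ∀ z, |h z - G x z| ≤ δ * (1 + ‖z‖)) :
    (∀ y ∈ {z | h z = 1}, ∃ z ∈ {z | G x z = 1}, dist y z ≤ 14 * δ) ∧
    (∀ y ∈ {z | G x z = 1}, ∃ z ∈ {z | h z = 1}, dist y z ≤ 14 * δ) := by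
  constructor
  · intro y hy
    have hy1 : h y = 1 := hy
    have h1 := abs_le.mp (hh y)
    have h2 := norm_le_G x y
    have h3 := G_le hx y
    have hyn : ‖y‖ ≤ 2 := by nlinarith [norm_nonneg y]
    have hyl : 1 / 2 ≤ ‖y‖ := by nlinarith [norm_nonneg y]
    have hGu : G x y ≤ 1 + 3 * δ := by nlinarith
    have hGl : 1 - 3 * δ ≤ G x y := by nlinarith
    have r1 := G_ray hx y zero_le_one (show (1 : ℝ) ≤ 1 + 7 * δ by linarith)
    have r2 := G_ray hx y (show (0 : ℝ) ≤ 1 - 7 * δ by linarith) (show 1 - 7 * δ ≤ (1 : ℝ) by linarith)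
    rw [one_smul] at r1 r2
    have r3 : 1 ≤ G x ((1 + 7 * δ) • y) := by nlinarith
    have r4 : G x ((1 - 7 * δ) • y) ≤ 1 := by nlinarith
    have hcont : ContinuousOn (fun t : ℝ => G x (t • y)) (Icc (1 - 7 * δ) (1 + 7 * δ)) :=
      ((G_continuous hx).comp (by fun_prop)).continuousOn
    obtain ⟨t, ht, hteq⟩ := intermediate_value_Icc (by linarith) hcont ⟨r4, r3⟩
    refine ⟨t • y, hteq, ?_⟩
    rw [dist_eq_norm]
    have : y - t • y = (1 - t) • y := by rw [sub_smul, one_smul]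
    rw [this, norm_smul, Real.norm_eq_abs]
    have h5 : |1 - t| ≤ 7 * δ := by rw [abs_le]; constructor <;> linarith [ht.1, ht.2]
    calc |1 - t| * ‖y‖ ≤ (7 * δ) * 2 := mul_le_mul h5 hyn (norm_nonneg _) (by linarith)
      _ = 14 * δ := by ring
  · intro y hy
    have hy1 : G x y = 1 := hy
    have h2 := norm_le_G x y
    have h3 := G_le hx y
    have hyn : ‖y‖ ≤ 1 := by linarith
    have hyl : 3 / 4 ≤ ‖y‖ := by linarith
    have r1 := G_ray hx y zero_le_one (show (1 : ℝ) ≤ 1 + 7 * δ by linarith)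
    have r2 := G_ray hx y (show (0 : ℝ) ≤ 1 - 7 * δ by linarith) (show 1 - 7 * δ ≤ (1 : ℝ) by linarith)
    rw [one_smul] at r1 r2
    have n1 : ‖(1 + 7 * δ) • y‖ ≤ 3 / 2 := by
      rw [norm_smul, Real.norm_of_nonneg (by linarith)]
      nlinarith
    have n2 : ‖(1 - 7 * δ) • y‖ ≤ 1 := by
      rw [norm_smul, Real.norm_of_nonneg (by linarith)]
      nlinarith
    have b1 := abs_le.mp (hh ((1 + 7 * δ) • y))
    have b2 := abs_le.mp (hh ((1 - 7 * δ) • y))
    have r3 : 1 ≤ h ((1 + 7 * δ) • y) := by nlinarith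
    have r4 : h ((1 - 7 * δ) • y) ≤ 1 := by nlinarith
    have hcont : ContinuousOn (fun t : ℝ => h (t • y)) (Icc (1 - 7 * δ) (1 + 7 * δ)) :=
      (hc.comp (by fun_prop)).continuousOn
    obtain ⟨t, ht, hteq⟩ := intermediate_value_Icc (by linarith) hcont ⟨r4, r3⟩
    refine ⟨t • y, hteq, ?_⟩
    rw [dist_eq_norm]
    have : y - t • y = (1 - t) • y := by rw [sub_smul, one_smul]
    rw [this, norm_smul, Real.norm_eq_abs]
    have h5 : |1 - t| ≤ 7 * δ := by rw [abs_le]; constructor <;> linarith [ht.1, ht.2]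
    calc |1 - t| * ‖y‖ ≤ (7 * δ) * 1 := mul_le_mul h5 hyn (norm_nonneg _) (by linarith)
      _ ≤ 14 * δ := by linarith

/-- The strengthened midpoint inequality. -/
theorem G_midpoint {x : ℕ → V} (hx : ∀ i, ‖x i‖ ≤ 1) (i : ℕ) (y z m : V) (hm : (2 : ℝ) • m = y + z) :
    2 * G x m + w i * (‖y - x i‖ + ‖z - x i‖ - 2 * ‖m - x i‖) ≤ G x y + G x z := by
  have hgap : ∀ p : V, 2 * ‖m - p‖ ≤ ‖y - p‖ + ‖z - p‖ := by
    intro p
    calc 2 * ‖m - p‖ = ‖(2 : ℝ) • (m - p)‖ := by rw [norm_smul]; norm_num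
      _ = ‖(y - p) + (z - p)‖ := by
          congr 1
          rw [smul_sub, hm, two_smul]
          abel
      _ ≤ ‖y - p‖ + ‖z - p‖ := norm_add_le _ _
  have hs : Summable (fun j => w j * (‖y - x j‖ + ‖z - x j‖ - 2 * ‖m - x j‖)) := by
    have := ((summable_G hx y).add (summable_G hx z)).sub ((summable_G hx m).mul_left 2)
    refine this.congr fun j => ?_
    ring
  have h1 : w i * (‖y - x i‖ + ‖z - x i‖ - 2 * ‖m - x i‖)
      ≤ ∑' j, w j * (‖y - x j‖ + ‖z - x j‖ - 2 * ‖m - x j‖) :=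
    hs.le_tsum i fun j _ => mul_nonneg (w_nonneg j) (by linarith [hgap (x j)])
  have h2 : ∑' j, w j * (‖y - x j‖ + ‖z - x j‖ - 2 * ‖m - x j‖)
      = (∑' j, w j * ‖y - x j‖) + (∑' j, w j * ‖z - x j‖) - 2 * ∑' j, w j * ‖m - x j‖ := by
    rw [← tsum_mul_left, ← Summable.tsum_add (summable_G hx y) (summable_G hx z),
      ← Summable.tsum_sub ((summable_G hx y).add (summable_G hx z)) ((summable_G hx m).mul_left 2)]
    congr 1
    funext j
    ring
  have h3 := hgap 0
  simp only [sub_zero] at h3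
  unfold G
  linarith

/-- At `x i`, the level curve of `G` has a corner, so it cannot be the level set of a function that
is differentiable there with nonzero derivative. -/
theorem corner {x : ℕ → V} (hx : ∀ i, ‖x i‖ ≤ 1) (hGx : ∀ i, G x (x i) = 1) (i : ℕ)
    {F : V → ℝ} {c : ℝ} (hF : Continuous F) {L : V →L[ℝ] ℝ} (hL : HasFDerivAt F L (x i))
    {n v : V} (hLn : 0 < L n) (hn : ‖n‖ = 1) (hLv : L v = 0) (hv : ‖v‖ = 1)
    (heq : {z | G x z = 1} = {z | F z = c}) : False := by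
  have hFa : F (x i) = c := by
    have : x i ∈ {z | G x z = 1} := hGx i
    rw [heq] at this
    exact this
  have hwpos := w_pos i
  have hw8 : w i ≤ 1 / 8 := by
    unfold w
    calc (1 / 8 : ℝ) ^ (i + 1) ≤ (1 / 8 : ℝ) ^ 1 :=
          pow_le_pow_of_le_one (by norm_num) (by norm_num) (by omega)
      _ = 1 / 8 := by norm_num
  set ε : ℝ := w i / 4 with hε
  have hε0 : 0 < ε := by positivity
  have hε1 : ε ≤ 1 / 32 := by rw [hε]; linarith
  set κ : ℝ := ε * L n / 4 with hκ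
  have hκ0 : 0 < κ := by positivity
  have hlit := (hasFDerivAt_iff_isLittleO_nhds_zero.mp hL).def hκ0
  obtain ⟨ρ, hρ0, hρ⟩ := Metric.eventually_nhds_iff.mp hlit
  -- choose t small
  obtain ⟨t, ht0, htρ⟩ : ∃ t : ℝ, 0 < t ∧ 2 * t < ρ := ⟨ρ / 4, by positivity, by linarith⟩
  -- for a unit vector v' in the kernel, find a point of the level set near x i + t v'
  have hpt : ∀ v' : V, L v' = 0 → ‖v'‖ = 1 →
      ∃ s : ℝ, |s| ≤ ε * t ∧ F (x i + (t • v' + s • n)) = c := by
    intro v' hLv' hv'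
    have hest : ∀ s : ℝ, |s| ≤ ε * t →
        |F (x i + (t • v' + s • n)) - c - s * L n| ≤ κ * (2 * t) := by
      intro s hs
      have hnorm : ‖t • v' + s • n‖ ≤ 2 * t := by
        calc ‖t • v' + s • n‖ ≤ ‖t • v'‖ + ‖s • n‖ := norm_add_le _ _
          _ = t + |s| := by
              rw [norm_smul, norm_smul, hv', hn, Real.norm_of_nonneg ht0.le, Real.norm_eq_abs]
              ring
          _ ≤ 2 * t := by nlinarith
      have h1 := hρ (y := t • v' + s • n) (by rw [dist_zero_right]; linarith)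
      rw [hFa] at h1
      have h2 : L (t • v' + s • n) = s * L n := by
        rw [map_add, map_smul, map_smul, hLv', smul_zero, zero_add, smul_eq_mul]
      rw [h2, Real.norm_eq_abs] at h1
      exact h1.trans (mul_le_mul_of_nonneg_left hnorm hκ0.le)
    have hup := hest (ε * t) (by rw [abs_of_nonneg (by positivity)])
    have hlo := hest (-(ε * t)) (by rw [abs_neg, abs_of_nonneg (by positivity)])
    rw [abs_le] at hup hlo
    have e1 : κ * (2 * t) = ε * t * L n / 2 := by rw [hκ]; ring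
    rw [e1] at hup hlo
    have hpos : 0 < ε * t * L n := by positivity
    have hcont : ContinuousOn (fun s : ℝ => F (x i + (t • v' + s • n))) (Icc (-(ε * t)) (ε * t)) :=
      (hF.comp (by fun_prop)).continuousOn
    obtain ⟨s, hs, hseq⟩ := intermediate_value_Icc (by nlinarith) hcont
      (show c ∈ Icc (F (x i + (t • v' + (-(ε * t)) • n))) (F (x i + (t • v' + (ε * t) • n))) by
        constructor <;> linarith [hup.1, hlo.2])
    exact ⟨s, abs_le.mpr ⟨hs.1, hs.2⟩, hseq⟩
  obtain ⟨s, hs, hseq⟩ := hpt v hLv hv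
  obtain ⟨s', hs', hseq'⟩ := hpt (-v) (by rw [map_neg, hLv, neg_zero]) (by rw [norm_neg, hv])
  have hG1 : G x (x i + (t • v + s • n)) = 1 := by
    have : x i + (t • v + s • n) ∈ {z | F z = c} := hseq
    rw [← heq] at this
    exact this
  have hG2 : G x (x i + (t • (-v) + s' • n)) = 1 := by
    have : x i + (t • (-v) + s' • n) ∈ {z | F z = c} := hseq'
    rw [← heq] at this
    exact this
  set m : V := x i + ((s + s') / 2) • n with hm
  have hm2 : (2 : ℝ) • m = (x i + (t • v + s • n)) + (x i + (t • (-v) + s' • n)) := by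
    rw [hm, smul_add, smul_smul, smul_neg]
    have : (2 : ℝ) * ((s + s') / 2) = s + s' := by ring
    rw [this, add_smul, two_smul]
    abel
  have hmid := G_midpoint hx i _ _ _ hm2
  rw [hG1, hG2] at hmid
  have hnm : ‖m - x i‖ ≤ ε * t := by
    rw [hm, add_sub_cancel_left, norm_smul, hn, mul_one, Real.norm_eq_abs]
    rw [abs_le] at hs hs' ⊢
    constructor <;> linarith [hs.1, hs.2, hs'.1, hs'.2]
  have hlip := G_le_add hx (x i) m
  rw [hGx i, norm_sub_rev] at hlip
  have hy1 : t - ε * t ≤ ‖(x i + (t • v + s • n)) - x i‖ := by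
    rw [add_sub_cancel_left]
    have h1 : ‖t • v‖ = t := by rw [norm_smul, hv, mul_one, Real.norm_of_nonneg ht0.le]
    have h2 : ‖s • n‖ ≤ ε * t := by rw [norm_smul, hn, mul_one, Real.norm_eq_abs]; exact hs
    have h3 := norm_sub_le_norm_add (t • v) (s • n)
    linarith
  have hy2 : t - ε * t ≤ ‖(x i + (t • (-v) + s' • n)) - x i‖ := by
    rw [add_sub_cancel_left]
    have h1 : ‖t • (-v)‖ = t := by rw [norm_smul, norm_neg, hv, mul_one, Real.norm_of_nonneg ht0.le]
    have h2 : ‖s' • n‖ ≤ ε * t := by rw [norm_smul, hn, mul_one, Real.norm_eq_abs]; exact hs'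
    have h3 := norm_sub_le_norm_add (t • (-v)) (s' • n)
    linarith
  -- final numeric contradiction
  have hgap : 2 * (t - ε * t) - 2 * (ε * t) ≤ ‖(x i + (t • v + s • n)) - x i‖
      + ‖(x i + (t • (-v) + s' • n)) - x i‖ - 2 * ‖m - x i‖ := by linarith
  have h4 := mul_le_mul_of_nonneg_left hgap hwpos.le
  have h5 : w i = 4 * ε := by rw [hε]; ring
  rw [h5] at h4 hmid
  nlinarith [mul_pos hε0 ht0]

end Pool.Agent.W_MP_8b9c06_gt
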