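import Pool.Agent.W_MP_8b9c06_gt.Defs
import Pool.Agent.W_MP_8b9c06_gt.Basic
import Pool.Agent.W_MP_8b9c06_gt.Geometry
import Pool.Agent.W_MP_8b9c06_gt.Curve
import Pool.Agent.W_MP_8b9c06_gt.Potential

set_option autoImplicit false

namespace Pool.Agent.W_MP_8b9c06_gt

open Set Filter Topology MeasureTheory

/-- Perturb finitely many points to make them distinct. -/
theorem exists_injective_perturb {V : Type*} [NormedAddCommGroup V] [NormedSpace ℝ V] {e : V}
    (he : ‖e‖ = 1) {ι : Type*} [Fintype ι] (b : ι → V) {η : ℝ} (hη : 0 < η) :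
    ∃ y : ι → V, Function.Injective y ∧ ∀ k, ‖y k - b k‖ ≤ η := by
  classical
  let σ : ι → ℝ := fun k => ((Fintype.equivFin ι k : ℕ) : ℝ)
  have hσinj : Function.Injective σ := by
    intro k l hkl
    have h1 : ((Fintype.equivFin ι k : ℕ) : ℝ) = ((Fintype.equivFin ι l : ℕ) : ℝ) := hkl
    have h2 : (Fintype.equivFin ι k : ℕ) = (Fintype.equivFin ι l : ℕ) := by exact_mod_cast h1
    exact (Fintype.equivFin ι).injective (Fin.ext h2)
  have hσ0 : ∀ k, 0 ≤ σ k := fun k => by positivity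
  have hσN : ∀ k, σ k ≤ Fintype.card ι := fun k => by
    have h1 := (Fintype.equivFin ι k).isLt
    show ((Fintype.equivFin ι k : ℕ) : ℝ) ≤ Fintype.card ι
    exact_mod_cast h1.le
  have he0 : e ≠ 0 := by
    rintro rfl
    rw [norm_zero] at he
    exact zero_ne_one he
  let bad : ι × ι → Set ℝ := fun q => {t | q.1 ≠ q.2 ∧ b q.1 + (t * σ q.1) • e = b q.2 + (t * σ q.2) • e}
  have hbad : ∀ q, (bad q).Finite := by
    intro q
    refine Set.Subsingleton.finite ?_
    rintro t ⟨hq, ht⟩ t' ⟨_, ht'⟩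
    have h1 : (t * (σ q.1 - σ q.2)) • e = b q.2 - b q.1 := by
      rw [mul_sub, sub_smul, sub_eq_sub_iff_add_eq_add, add_comm, ht, add_comm]
    have h2 : (t' * (σ q.1 - σ q.2)) • e = b q.2 - b q.1 := by
      rw [mul_sub, sub_smul, sub_eq_sub_iff_add_eq_add, add_comm, ht', add_comm]
    have h3 : t * (σ q.1 - σ q.2) = t' * (σ q.1 - σ q.2) :=
      smul_left_injective ℝ he0 (h1.trans h2.symm)
    exact mul_right_cancel₀ (sub_ne_zero.mpr fun h => hq (hσinj h)) h3
  have hfin : (⋃ q, bad q).Finite := Set.finite_iUnion hbad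
  have hpos : 0 < η / (Fintype.card ι + 1) := by positivity
  obtain ⟨t, ht, htbad⟩ := (Set.Ioo_infinite hpos).exists_notMem_finite hfin
  refine ⟨fun k => b k + (t * σ k) • e, ?_, ?_⟩
  · intro k l hkl
    by_contra hne
    exact htbad (Set.mem_iUnion.mpr ⟨(k, l), hne, hkl⟩)
  · intro k
    rw [add_sub_cancel_left, norm_smul, he, mul_one, Real.norm_of_nonneg (mul_nonneg ht.1.le (hσ0 k))]
    calc t * σ k ≤ (η / (Fintype.card ι + 1)) * (Fintype.card ι + 1) := by
          refine mul_le_mul ht.2.le ?_ (hσ0 k) hpos.le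
          linarith [hσN k]
      _ = η := by field_simp

/-- tail of the weights -/
theorem w_add (N i : ℕ) : w (i + N) = (1 / 8 : ℝ) ^ N * w i := by
  unfold w
  rw [← pow_add]
  congr 1
  omega

/-- integer weights -/
theorem pow_eq_w (N i : ℕ) (h : i < N) : (((8 ^ (N - 1 - i) : ℕ) : ℕ) : ℝ) = 8 ^ N * w i := by
  unfold w
  push_cast
  have h1 : (8 : ℝ) ^ N = 8 ^ (N - 1 - i) * 8 ^ (i + 1) := by
    rw [← pow_add]; congr 1; omega
  rw [h1, mul_assoc, ← mul_pow]
  norm_num

/-- the truncated function is close to `G` -/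
theorem truncate_close {V : Type*} [NormedAddCommGroup V] [NormedSpace ℝ V] {x : ℕ → V}
    (hx : ∀ i, ‖x i‖ ≤ 1) (N : ℕ) (z : V) :
    |(‖z‖ + ∑ i ∈ Finset.range N, w i * ‖z - x i‖) - G x z| ≤ (1 / 8 : ℝ) ^ N * (1 + ‖z‖) := by
  have h1 := (summable_G hx z).sum_add_tsum_nat_add N
  have h2 : ∑' i, w (i + N) * ‖z - x (i + N)‖ = (1 / 8 : ℝ) ^ N * ∑' i, w i * ‖z - x (i + N)‖ := by
    rw [← tsum_mul_left]
    congr 1
    funext i
    rw [w_add]
    ring
  have h3 := tsum_w_mul_le (f := fun i => ‖z - x (i + N)‖) (fun _ => norm_nonneg _)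
    (fun i => norm_sub_le_one_add (fun i => hx (i + N)) z i)
  have h4 := tsum_w_mul_nonneg (f := fun i => ‖z - x (i + N)‖) (fun _ => norm_nonneg _)
  rw [h2] at h1
  have h5 : 0 < (1 / 8 : ℝ) ^ N := by positivity
  have h6 : (1 / 8 : ℝ) ^ N * ∑' i, w i * ‖z - x (i + N)‖ ≤ (1 / 8 : ℝ) ^ N * (1 + ‖z‖) := by
    refine mul_le_mul_of_nonneg_left ?_ h5.le
    linarith [norm_nonneg z]
  have h7 : 0 ≤ (1 / 8 : ℝ) ^ N * ∑' i, w i * ‖z - x (i + N)‖ := mul_nonneg h5.le h4
  unfold G
  rw [← h1, abs_le]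
  constructor <;> linarith [norm_nonneg z]

theorem approximable {x : ℕ → Plane} (hx : ∀ i, ‖x i‖ ≤ 1) : IsApproximable {z | G x z = 1} := by
  intro ε hε
  -- a unit vector
  obtain ⟨e, he⟩ : ∃ e : Plane, ‖e‖ = 1 := ⟨EuclideanSpace.single 0 1, by simp⟩
  set δ : ℝ := min (1 / 14) (ε / 28) with hδ
  have hδ0 : 0 < δ := by rw [hδ]; positivity
  have hδ1 : δ ≤ 1 / 14 := min_le_left _ _
  have hδ2 : δ ≤ ε / 28 := min_le_right _ _
  obtain ⟨N, hN⟩ := exists_pow_lt_of_lt_one (show 0 < δ / 2 by positivity) (show (1 / 8 : ℝ) < 1 by norm_num)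
  set η : ℝ := δ / 4 with hη
  have hη0 : 0 < η := by positivity
  let ι : Type := Fin (8 ^ N) ⊕ (Σ i : Fin N, Fin (8 ^ (N - 1 - (i : ℕ))))
  let b : ι → Plane := Sum.elim (fun _ => 0) (fun q => x q.1)
  obtain ⟨y, hyinj, hy⟩ := exists_injective_perturb he b hη0
  -- the sum over the unperturbed foci
  have hsumb : ∀ z : Plane, ∑ k, ‖z - b k‖ = 8 ^ N * (‖z‖ + ∑ i ∈ Finset.range N, w i * ‖z - x i‖) := by
    intro z
    rw [Fintype.sum_sum_type, Fintype.sum_sigma]
    simp only [b, Sum.elim_inl, Sum.elim_inr, sub_zero, Finset.sum_const, Finset.card_univ,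
      Fintype.card_fin, nsmul_eq_mul]
    rw [mul_add, Finset.mul_sum, ← Fin.sum_univ_eq_sum_range (fun i => 8 ^ N * (w i * ‖z - x i‖)) N]
    congr 1
    · push_cast; ring
    · refine Finset.sum_congr rfl fun i _ => ?_
      rw [pow_eq_w N i i.isLt]; ring
  have hcard : (Fintype.card ι : ℝ) ≤ 8 ^ N * 2 := by
    have h1 : (Fintype.card ι : ℝ) = 8 ^ N * (1 + ∑ i ∈ Finset.range N, w i) := by
      simp only [ι, Fintype.card_sum, Fintype.card_sigma, Fintype.card_fin]
      push_cast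
      rw [mul_add, mul_one, Finset.mul_sum, ← Fin.sum_univ_eq_sum_range (fun i => 8 ^ N * w i) N]
      congr 1
      refine Finset.sum_congr rfl fun i _ => ?_
      have := pow_eq_w N i i.isLt
      push_cast at this
      exact this
    rw [h1]
    have h2 : ∑ i ∈ Finset.range N, w i ≤ 1 / 7 := by
      rw [← tsum_w]
      exact summable_w.sum_le_tsum _ fun i _ => w_nonneg i
    have h3 : (0 : ℝ) < 8 ^ N := by positivity
    nlinarith
  have h8 : (0 : ℝ) < 8 ^ N := by positivity
  let h : Plane → ℝ := fun z => (∑ k, ‖z - y k‖) / 8 ^ N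
  have hcont : Continuous h := by
    show Continuous fun z => (∑ k, ‖z - y k‖) / 8 ^ N
    fun_prop
  have hclose : ∀ z, |h z - G x z| ≤ δ * (1 + ‖z‖) := by
    intro z
    have h1 : |∑ k, ‖z - y k‖ - ∑ k, ‖z - b k‖| ≤ 8 ^ N * 2 * η := by
      rw [← Finset.sum_sub_distrib]
      calc |∑ k, (‖z - y k‖ - ‖z - b k‖)| ≤ ∑ k, |‖z - y k‖ - ‖z - b k‖| := Finset.abs_sum_le_sum_abs _ _
        _ ≤ ∑ _k : ι, η := by
            refine Finset.sum_le_sum fun k _ => ?_
            refine (abs_norm_sub_norm_le _ _).trans ?_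
            have : z - y k - (z - b k) = -(y k - b k) := by abel
            rw [this, norm_neg]
            exact hy k
        _ = Fintype.card ι * η := by simp
        _ ≤ 8 ^ N * 2 * η := mul_le_mul_of_nonneg_right hcard hη0.le
    rw [hsumb] at h1
    have h2 : |h z - (‖z‖ + ∑ i ∈ Finset.range N, w i * ‖z - x i‖)| ≤ 2 * η := by
      have : h z - (‖z‖ + ∑ i ∈ Finset.range N, w i * ‖z - x i‖)
          = (∑ k, ‖z - y k‖ - 8 ^ N * (‖z‖ + ∑ i ∈ Finset.range N, w i * ‖z - x i‖)) / 8 ^ N := by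
        show (∑ k, ‖z - y k‖) / 8 ^ N - _ = _
        field_simp
      rw [this, abs_div, abs_of_pos h8, div_le_iff₀ h8]
      linarith
    have h3 := truncate_close hx N z
    have h4 : |h z - G x z| ≤ |h z - (‖z‖ + ∑ i ∈ Finset.range N, w i * ‖z - x i‖)|
        + |(‖z‖ + ∑ i ∈ Finset.range N, w i * ‖z - x i‖) - G x z| := abs_sub_le _ _ _
    have h5 : (1 / 8 : ℝ) ^ N * (1 + ‖z‖) ≤ δ / 2 * (1 + ‖z‖) :=
      mul_le_mul_of_nonneg_right hN.le (by positivity)
    have h6 : 2 * η = δ / 2 := by rw [hη]; ring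
    nlinarith [norm_nonneg z]
  obtain ⟨hA, hB⟩ := level_close hx hcont hδ0 hδ1 hclose
  refine ⟨{z | h z = 1}, ?_, ?_⟩
  · -- it is a multifocal ellipse
    refine ⟨Fintype.card ι, y ∘ (Fintype.equivFin ι).symm, 8 ^ N, ?_, ?_, ?_, ?_⟩
    · have : Nonempty ι := ⟨Sum.inl ⟨0, by positivity⟩⟩
      exact Fintype.card_pos
    · exact hyinj.comp (Fintype.equivFin ι).symm.injective
    · refine ⟨0, ?_⟩
      have h1 : ∑ i, dist (0 : Plane) ((y ∘ (Fintype.equivFin ι).symm) i) = ∑ k, ‖(0 : Plane) - y k‖ := by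
        rw [← Equiv.sum_comp (Fintype.equivFin ι).symm]
        rfl
      rw [h1]
      have h2 := (abs_le.mp (hclose 0)).2
      have h3 := G_zero_le hx
      rw [norm_zero] at h2
      have h4 : h 0 < 1 := by linarith
      have h5 : (∑ k, ‖(0 : Plane) - y k‖) / 8 ^ N < 1 := h4
      rw [div_lt_one h8] at h5
      exact h5
    · ext z
      have h1 : ∑ i, dist z ((y ∘ (Fintype.equivFin ι).symm) i) = ∑ k, ‖z - y k‖ := by
        rw [← Equiv.sum_comp (Fintype.equivFin ι).symm]
        simp only [dist_eq_norm, Function.comp]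
      simp only [mem_setOf_eq, h1]
      show (∑ k, ‖z - y k‖) / 8 ^ N = 1 ↔ _
      rw [div_eq_one_iff_eq h8.ne']
  · have h1 : Metric.hausdorffEDist {z | h z = 1} {z | G x z = 1} ≤ ENNReal.ofReal (14 * δ) := by
      refine Metric.hausdorffEDist_le_of_mem_edist ?_ ?_
      · intro z hz
        obtain ⟨z', hz', hd⟩ := hA z hz
        refine ⟨z', hz', ?_⟩
        rw [edist_dist]
        exact ENNReal.ofReal_le_ofReal hd
      · intro z hz
        obtain ⟨z', hz', hd⟩ := hB z hz
        refine ⟨z', hz', ?_⟩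
        rw [edist_dist]
        exact ENNReal.ofReal_le_ofReal hd
    refine h1.trans_lt ?_
    rw [ENNReal.ofReal_lt_ofReal_iff hε]
    linarith

theorem closedConvexCurve {x : ℕ → Plane} (hx : ∀ i, ‖x i‖ ≤ 1) :
    IsClosedConvexCurve {z | G x z = 1} := by
  refine ⟨{z | G x z ≤ 1}, ?_, ?_, ?_, (frontier_sublevel hx).symm⟩
  · have := (G_convex hx).convex_le 1
    simpa using this
  · refine Metric.isCompact_of_isClosed_isBounded (isClosed_le (G_continuous hx) continuous_const) ?_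
    refine (Metric.isBounded_closedBall (x := (0 : Plane)) (r := 1)).subset fun z hz => ?_
    rw [mem_closedBall_zero_iff]
    exact (norm_le_G x z).trans hz
  · refine ⟨0, ?_⟩
    rw [mem_interior]
    refine ⟨{z | G x z < 1}, fun z (hz : G x z < 1) => (show G x z ≤ 1 from hz.le), isOpen_lt (G_continuous hx) continuous_const, ?_⟩
    have := G_zero_le hx
    show G x 0 < 1
    linarith

/-- a convex function with zero derivative at `a` has its minimum at `a` -/
theorem min_of_fderiv_zero {V : Type*} [NormedAddCommGroup V] [NormedSpace ℝ V] {F : V → ℝ}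
    (hconv : ConvexOn ℝ univ F) {a : V} (h : HasFDerivAt F (0 : V →L[ℝ] ℝ) a) (z : V) : F a ≤ F z := by
  by_contra hlt
  push Not at hlt
  -- derivative along the segment
  have hline : HasDerivAt (fun t : ℝ => F (a + t • (z - a))) 0 0 := by
    have h1 : HasFDerivAt (fun t : ℝ => a + t • (z - a))
        ((ContinuousLinearMap.id ℝ ℝ).smulRight (z - a)) 0 := by
      have := ((ContinuousLinearMap.id ℝ ℝ).smulRight (z - a)).hasFDerivAt (x := (0 : ℝ))
      exact this.const_add a
    have h2 : HasFDerivAt F (0 : V →L[ℝ] ℝ) (a + (0 : ℝ) • (z - a)) := by simpa using h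
    have h3 := h2.comp (0 : ℝ) h1
    have h4 := h3.hasDerivAt
    have h5 : (F ∘ fun t : ℝ => a + t • (z - a)) = (fun t : ℝ => F (a + t • (z - a))) := rfl
    rw [h5] at h4
    exact h4
  have hd : 0 < F a - F z := by linarith
  have hlit := (hasDerivAt_iff_isLittleO_nhds_zero.mp hline).def (half_pos hd)
  obtain ⟨ρ, hρ0, hρ⟩ := Metric.eventually_nhds_iff.mp hlit
  set t : ℝ := min (ρ / 2) 1 with ht
  have ht0 : 0 < t := by rw [ht]; positivity
  have ht1 : t ≤ 1 := min_le_right _ _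
  have htρ : t < ρ := (min_le_left _ _).trans_lt (by linarith)
  have h1 := hρ (y := t) (by rw [dist_zero_right, Real.norm_of_nonneg ht0.le]; exact htρ)
  simp only [zero_add, zero_smul, add_zero, smul_zero, sub_zero, Real.norm_eq_abs, abs_of_pos ht0] at h1
  have h2 := hconv.2 (mem_univ a) (mem_univ z) (show 0 ≤ 1 - t by linarith) ht0.le (by ring)
  have h3 : (1 - t) • a + t • z = a + t • (z - a) := by
    rw [sub_smul, one_smul, smul_sub]; abel
  rw [h3] at h2
  simp only [smul_eq_mul] at h2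
  have h4 := (abs_le.mp h1).1
  nlinarith

theorem exists_unit_ker (L : Plane →L[ℝ] ℝ) : ∃ v : Plane, L v = 0 ∧ ‖v‖ = 1 := by
  have h1 : Module.finrank ℝ ℝ < Module.finrank ℝ Plane := by
    rw [finrank_euclideanSpace_fin, Module.finrank_self]; norm_num
  obtain ⟨v0, hv0, hv0'⟩ := Submodule.exists_mem_ne_zero_of_ne_bot
    (LinearMap.ker_ne_bot_of_finrank_lt (f := L.toLinearMap) h1)
  refine ⟨(‖v0‖)⁻¹ • v0, ?_, ?_⟩
  · have : L v0 = 0 := hv0
    rw [map_smul, this, smul_zero]
  · rw [norm_smul, norm_inv, norm_norm, inv_mul_cancel₀ (norm_ne_zero_iff.mpr hv0')]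

theorem exists_unit_pos {L : Plane →L[ℝ] ℝ} (hL : L ≠ 0) : ∃ n : Plane, 0 < L n ∧ ‖n‖ = 1 := by
  obtain ⟨n0, hn0⟩ : ∃ n0, L n0 ≠ 0 := by
    by_contra hcon
    push Not at hcon
    exact hL (ContinuousLinearMap.ext hcon)
  have hnn : n0 ≠ 0 := by
    rintro rfl
    exact hn0 (map_zero L)
  have hpos : 0 < ‖n0‖ := norm_pos_iff.mpr hnn
  rcases lt_or_gt_of_ne hn0 with hneg | hpos'
  · refine ⟨-((‖n0‖)⁻¹ • n0), ?_, ?_⟩
    · rw [map_neg, map_smul, smul_eq_mul, neg_pos]
      exact mul_neg_of_pos_of_neg (inv_pos.mpr hpos) hneg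
    · rw [norm_neg, norm_smul, norm_inv, norm_norm, inv_mul_cancel₀ hpos.ne']
  · refine ⟨(‖n0‖)⁻¹ • n0, ?_, ?_⟩
    · rw [map_smul, smul_eq_mul]
      exact mul_pos (inv_pos.mpr hpos) hpos'
    · rw [norm_smul, norm_inv, norm_norm, inv_mul_cancel₀ hpos.ne']

theorem not_generalized {x : ℕ → Plane} (hinj : Function.Injective x) (hx : ∀ i, ‖x i‖ ≤ 1)
    (hGx : ∀ i, G x (x i) = 1) : ¬ IsGeneralizedEllipse {z | G x z = 1} := by
  rintro ⟨E, ℓ, γ, m, p, F, c, hEo, hEb, hℓ, hγ, hF, ⟨z0, hz0⟩, hC⟩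
  -- pick a corner which is not one of the `p j`
  obtain ⟨i, hi⟩ : ∃ i, x i ∉ range p := by
    by_contra hcon
    push Not at hcon
    have h1 : (range x).Finite := (Set.finite_range p).subset (by rintro _ ⟨i, rfl⟩; exact hcon i)
    exact Set.infinite_range_of_injective hinj h1
  -- the two measures
  have hEfin : volume E < ⊤ := hEb.measure_lt_top
  have : IsFiniteMeasure (volume.restrict E) := ⟨by rw [Measure.restrict_apply_univ]; exact hEfin⟩
  obtain ⟨R, hR⟩ := hEb.subset_closedBall (0 : Plane)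
  have hintE : Integrable (fun y : Plane => y) (volume.restrict E) := by
    refine Integrable.of_bound (C := R) aestronglyMeasurable_id ?_
    refine (ae_restrict_mem hEo.measurableSet).mono fun y hy => ?_
    exact mem_closedBall_zero_iff.mp (hR hy)
  have hintγ : Integrable γ (volume.restrict (Ioc 0 ℓ)) := by
    have h1 : ContinuousOn γ (Icc 0 ℓ) := unitSpeed_continuousOn hγ
    have h2 : IntegrableOn γ (Icc 0 ℓ) := h1.integrableOn_Icc
    exact h2.mono_set Ioc_subset_Icc_self
  have hF' : F = fun x => (∫ y, dist x y ∂(volume.restrict E))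
      + (∫ s, dist x (γ s) ∂(volume.restrict (Ioc 0 ℓ))) + ∑ j, dist x (p j) := by
    funext x
    rw [hF x, intervalIntegral.integral_of_le hℓ]
  have hcont : Continuous F := by
    rw [hF']
    refine ((potential_continuous hintE).add (potential_continuous hintγ)).add ?_
    fun_prop
  have hconv : ConvexOn ℝ univ F := by
    rw [hF']
    refine ((potential_convex hintE).add (potential_convex hintγ)).add ?_
    refine ⟨convex_univ, fun y _ z _ a b ha hb hab => ?_⟩
    simp only [smul_eq_mul, Finset.mul_sum]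
    rw [← Finset.sum_add_distrib]
    exact Finset.sum_le_sum fun j _ =>
      (convexOn_dist_point (p j)).2 (mem_univ y) (mem_univ z) ha hb hab
  have hdiff : DifferentiableAt ℝ F (x i) := by
    rw [hF']
    refine ((potential_hasFDerivAt hintE ?_).add (potential_hasFDerivAt hintγ ?_)).add ?_
    · refine ae_restrict_of_ae ?_
      exact measure_singleton (μ := (volume : Measure Plane)) (x i) |> fun h => by
        rw [ae_iff]
        simpa using h
    · rw [ae_restrict_iff' measurableSet_Ioc, ae_iff]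
      refine measure_mono_null ?_ (unitSpeed_null hℓ hγ (x i))
      intro s hs
      simp only [mem_setOf_eq, Classical.not_imp, not_not] at hs
      exact ⟨Ioc_subset_Icc_self hs.1, hs.2⟩
    · refine DifferentiableAt.fun_sum fun j _ => ?_
      have hne : x i ≠ p j := fun h => hi ⟨j, h.symm⟩
      exact differentiableAt_id.dist ℝ (differentiableAt_const _) hne
  have hFx : F (x i) = c := by
    have : x i ∈ {z | G x z = 1} := hGx i
    rw [hC] at this
    exact this
  have hL : fderiv ℝ F (x i) ≠ 0 := by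
    intro h0
    have h1 := hdiff.hasFDerivAt
    rw [h0] at h1
    have := min_of_fderiv_zero hconv h1 z0
    linarith
  obtain ⟨n, hn0, hn1⟩ := exists_unit_pos hL
  obtain ⟨v, hv0, hv1⟩ := exists_unit_ker (fderiv ℝ F (x i))
  exact corner hx hGx i hcont hdiff.hasFDerivAt hn0 hn1 hv0 hv1 hC

/-- Infinitely many distinct unit vectors. -/
theorem exists_units : ∃ u : ℕ → Plane, Function.Injective u ∧ ∀ i, ‖u i‖ = 1 := by
  refine ⟨fun i => !₂[Real.cos (1 / ((i : ℝ) + 1)), Real.sin (1 / ((i : ℝ) + 1))], ?_, ?_⟩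
  · intro i j hij
    have h1 : Real.cos (1 / ((i : ℝ) + 1)) = Real.cos (1 / ((j : ℝ) + 1)) := by
      have := congrArg (fun v : Plane => v 0) hij
      simpa using this
    have hmem : ∀ k : ℕ, 1 / ((k : ℝ) + 1) ∈ Icc 0 Real.pi := by
      intro k
      refine ⟨by positivity, ?_⟩
      have : 1 / ((k : ℝ) + 1) ≤ 1 := by
        rw [div_le_one (by positivity)]
        linarith [Nat.cast_nonneg (α := ℝ) k]
      linarith [Real.pi_gt_three]
    have h2 := Real.injOn_cos (hmem i) (hmem j) h1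
    have h3 : (i : ℝ) + 1 = (j : ℝ) + 1 := by
      have := congrArg (fun t : ℝ => t⁻¹) h2
      simpa using this
    have : (i : ℝ) = j := by linarith
    exact_mod_cast this
  · intro i
    rw [EuclideanSpace.norm_eq]
    simp [Fin.sum_univ_two]

theorem main : ∃ C : Set Plane, IsClosedConvexCurve C ∧ IsApproximable C ∧ ¬ IsGeneralizedEllipse C := by
  obtain ⟨u, huinj, hu⟩ := exists_units
  obtain ⟨x, hxinj, hx, hGx⟩ := exists_points u hu huinj
  exact ⟨{z | G x z = 1}, closedConvexCurve hx, approximable hx, not_generalized hxinj hx hGx⟩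

end Pool.Agent.W_MP_8b9c06_gt
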